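import Pool.Agent.H66.SF.Giant

/-!
If the index is less than `2 ^ t` then all but `3 * t` points of `Q` lie in the giant class.
-/

namespace Pool.Agent.H66.SF
open Equiv Equiv.Perm

variable {P : Type} [Fintype P] [DecidableEq P]

/-- the involution which agrees with `φ` on `T ∪ φ T` and is the identity elsewhere -/
def twist (φ : P → P) (hφ : Function.Involutive φ) (T : Finset P) : Perm P :=
  Function.Involutive.toPerm (fun z => if z ∈ T ∨ φ z ∈ T then φ z else z) (by
    intro z
    by_cases h : z ∈ T ∨ φ z ∈ T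
    · simp only [if_pos h]
      have h' : φ z ∈ T ∨ φ (φ z) ∈ T := by rw [hφ z]; exact h.symm
      rw [if_pos h', hφ z]
    · simp only [if_neg h])

theorem twist_apply (φ : P → P) (hφ : Function.Involutive φ) (T : Finset P) (z : P) :
    twist φ hφ T z = if z ∈ T ∨ φ z ∈ T then φ z else z := rfl

theorem twist_inv (φ : P → P) (hφ : Function.Involutive φ) (T : Finset P) :
    (twist φ hφ T)⁻¹ = twist φ hφ T := by
  ext z
  rw [Perm.inv_eq_iff_eq]
  have := Function.Involutive.toPerm_involutive (f := fun z => if z ∈ T ∨ φ z ∈ T then φ z else z)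
    (by
      intro z
      by_cases h : z ∈ T ∨ φ z ∈ T
      · simp only [if_pos h]
        have h' : φ z ∈ T ∨ φ (φ z) ∈ T := by rw [hφ z]; exact h.symm
        rw [if_pos h', hφ z]
      · simp only [if_neg h]) z
  exact this.symm

theorem pow_le_of_twist (H : Subgroup (Perm P)) {Q U K A : Finset P} {N : ℕ}
    (hN : IndexLE H Q N) (hU : ∀ a ∈ U, ∀ b, Rel H Q a b → b ∈ U)
    (hK : ∀ a ∈ Q, ∃ c ∈ K, Rel H Q a c) (φ : P → P) (hφ : Function.Involutive φ)
    (hφK : ∀ c ∈ K, φ c = c) (hAQ : A ⊆ Q) (hAU : A ⊆ U) (hφA : ∀ x ∈ A, φ x ∉ U)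
    (hφQ : ∀ x ∈ A, φ x ∈ Q) : 2 ^ A.card ≤ N := by
  classical
  have hsupp : ∀ T ⊆ A, (twist φ hφ T).support ⊆ Q := by
    intro T hT z hz
    rw [mem_support, twist_apply] at hz
    by_cases h : z ∈ T ∨ φ z ∈ T
    · rcases h with h | h
      · exact hAQ (hT h)
      · have := hφQ _ (hT h)
        rwa [hφ z] at this
    · rw [if_neg h] at hz
      exact absurd rfl hz
  -- the key property
  have key : ∀ T ⊆ A, ∀ T' ⊆ A, (twist φ hφ T)⁻¹ * twist φ hφ T' ∈ H → ∀ x ∈ T', x ∈ T := by
    intro T hT T' hT' hmem x hx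
    by_contra hxT
    obtain ⟨c, hcK, hc⟩ := hK x (hAQ (hT' hx))
    have hsp : ((twist φ hφ T)⁻¹ * twist φ hφ T').support ⊆ Q := by
      refine (support_mul_le _ _).trans ?_
      rw [support_inv]
      exact Finset.union_subset (hsupp T hT) (hsupp T' hT')
    have h1 := Rel.map hmem hsp hc
    have e1 : ((twist φ hφ T)⁻¹ * twist φ hφ T') x = φ x := by
      rw [Perm.mul_apply, twist_inv, twist_apply φ hφ T' x, if_pos (Or.inl hx), twist_apply,
        if_neg]
      rw [hφ x]
      rintro (h | h)
      · exact hφA x (hT' hx) (hAU (hT h))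
      · exact hxT h
    have e2 : ((twist φ hφ T)⁻¹ * twist φ hφ T') c = c := by
      have : ∀ S : Finset P, twist φ hφ S c = c := by
        intro S
        rw [twist_apply, hφK c hcK]
        split_ifs <;> rfl
      rw [Perm.mul_apply, twist_inv, this, this]
    rw [e1, e2] at h1
    exact hφA x (hT' hx) (hU x (hAU (hT' hx)) _ (hc.trans h1.symm))
  have key' : ∀ T ⊆ A, ∀ T' ⊆ A, (twist φ hφ T)⁻¹ * twist φ hφ T' ∈ H → T = T' := by
    intro T hT T' hT' hmem
    apply Finset.Subset.antisymm
    · apply key T' hT' T hT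
      have := H.inv_mem hmem
      rwa [mul_inv_rev, inv_inv] at this
    · exact key T hT T' hT' hmem
  have hle := hN (A.powerset.image (fun T => twist φ hφ T)) (by
      intro σ hσ
      simp only [Finset.mem_image, Finset.mem_powerset] at hσ
      obtain ⟨T, hT, rfl⟩ := hσ
      exact hsupp T hT) (by
      intro σ hσ τ hτ hmem
      simp only [Finset.mem_image, Finset.mem_powerset] at hσ hτ
      obtain ⟨T, hT, rfl⟩ := hσ
      obtain ⟨T', hT', rfl⟩ := hτ
      rw [key' T hT T' hT' hmem])
  rwa [Finset.card_image_of_injOn, Finset.card_powerset] at hle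
  intro T hT T' hT' he
  simp only [Finset.coe_powerset, Set.mem_preimage, Set.mem_powerset_iff, Finset.coe_subset]
    at hT hT'
  apply key' T hT T' hT'
  have he' : twist φ hφ T = twist φ hφ T' := he
  rw [he', inv_mul_cancel]
  exact H.one_mem

/-- an involution exchanging two disjoint sets of the same size -/
theorem exists_involution {A B : Finset P} (hd : Disjoint A B) (hc : A.card = B.card) :
    ∃ φ : P → P, Function.Involutive φ ∧ (∀ x ∈ A, φ x ∈ B) ∧
      (∀ x, x ∉ A → x ∉ B → φ x = x) := by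
  classical
  let e : A ≃ B := Finset.equivOfCardEq hc
  refine ⟨fun z => if h : z ∈ A then (e ⟨z, h⟩ : P) else
    if h' : z ∈ B then (e.symm ⟨z, h'⟩ : P) else z, ?_, ?_, ?_⟩
  · intro z
    by_cases h : z ∈ A
    · have h1 : ((e ⟨z, h⟩ : B) : P) ∉ A := fun h2 => Finset.disjoint_left.1 hd h2 (e ⟨z, h⟩).2
      simp [h, h1]
    · by_cases h' : z ∈ B
      · have h1 : ((e.symm ⟨z, h'⟩ : A) : P) ∈ A := (e.symm ⟨z, h'⟩).2
        simp [h, h']
      · simp [h, h']
  · intro x hx
    simp [hx]
  · intro x h1 h2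
    simp [h1, h2]

theorem two_pow_le_factorial_succ (t : ℕ) : 2 ^ t ≤ (t + 1).factorial := by
  induction t with
  | zero => simp
  | succ t ih =>
    rw [pow_succ, Nat.factorial_succ, mul_comm]
    exact Nat.mul_le_mul (by omega) ih

/-- representatives of the classes -/
theorem exists_reps (H : Subgroup (Perm P)) (Q : Finset P) {N t : ℕ}
    (hN : IndexLE H Q N) (ht : N < 2 ^ t) :
    ∃ K ⊆ Q, (∀ a ∈ Q, ∃ c ∈ K, Rel H Q a c) ∧ K.card ≤ 2 * t := by
  classical
  let r : Setoid P := ⟨Rel H Q, ⟨Rel.refl H Q, Rel.symm, Rel.trans⟩⟩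
  let rep : P → P := fun a => (Quotient.mk r a).out
  have hrep : ∀ a, Rel H Q a (rep a) := fun a => (Quotient.mk_out (s := r) a).symm
  have hK : Q.image rep ⊆ Q := by
    intro x hx
    obtain ⟨a, ha, rfl⟩ := Finset.mem_image.1 hx
    exact (hrep a).mem ha
  refine ⟨Q.image rep, hK, fun a ha => ⟨rep a, Finset.mem_image_of_mem _ ha, hrep a⟩, ?_⟩
  by_contra hcon
  push Not at hcon
  have hfac : N < (((Q.image rep).card + 1) / 2).factorial := by
    have h1 : t + 1 ≤ ((Q.image rep).card + 1) / 2 := by omega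
    exact lt_of_lt_of_le ht ((two_pow_le_factorial_succ t).trans (Nat.factorial_le h1))
  obtain ⟨g, hg, hg3, hgK⟩ := exists_threeCycle H hN hK hfac
  obtain ⟨x, hx⟩ : g.support.Nonempty := by
    rw [← Finset.card_pos, hg3.card_support]; norm_num
  have hgx := apply_mem_support.2 hx
  have hrel : Rel H Q x (g x) := Or.inr ⟨g, hg, hg3, hgK.trans hK, hx, hgx⟩
  obtain ⟨a, _, ha⟩ := Finset.mem_image.1 (hgK hx)
  obtain ⟨b, _, hb⟩ := Finset.mem_image.1 (hgK hgx)
  have hab : Rel H Q a b := by
    have h1 := hrep a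
    have h2 := hrep b
    rw [ha] at h1
    rw [hb] at h2
    exact (h1.trans hrel).trans h2.symm
  have : rep a = rep b := by
    show (Quotient.mk r a).out = (Quotient.mk r b).out
    rw [Quotient.sound (s := r) hab]
  rw [ha, hb] at this
  exact (mem_support.1 hx) this.symm

/-- **Support theorem**: a subgroup of index less than `2 ^ t` has a giant class. -/
theorem supp_inter_card_lt (H : Subgroup (Perm P)) {Q : Finset P} {N t : ℕ}
    (hN : IndexLE H Q N) (ht : N < 2 ^ t) (hQ : 6 * t ≤ Q.card) :
    (supp H Q ∩ Q).card < 3 * t := by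
  classical
  have hN1 : 1 ≤ N := by
    have := hN {1} (by simp) (by simp)
    simpa using this
  have htpos : 0 < t := by
    rcases Nat.eq_zero_or_pos t with rfl | h
    · simp at ht; omega
    · exact h
  obtain ⟨K, hKQ, hK, hKcard⟩ := exists_reps H Q hN ht
  -- Claim A
  have claimA : ∀ U ⊆ Q, (∀ a ∈ U, ∀ b, Rel H Q a b → b ∈ U) →
      2 * (U \ K).card ≤ (Q \ K).card → (U \ K).card < t := by
    intro U hUQ hU hle
    have hd : Disjoint (U \ K) ((Q \ U) \ K) := by
      rw [Finset.disjoint_left]
      intro x h1 h2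
      simp only [Finset.mem_sdiff] at h1 h2
      exact h2.1.2 h1.1
    have hun : (U \ K) ∪ ((Q \ U) \ K) = Q \ K := by
      ext x
      simp only [Finset.mem_union, Finset.mem_sdiff]
      constructor
      · rintro (h | h)
        · exact ⟨hUQ h.1, h.2⟩
        · exact ⟨h.1.1, h.2⟩
      · intro h
        by_cases hx : x ∈ U
        · exact Or.inl ⟨hx, h.2⟩
        · exact Or.inr ⟨⟨h.1, hx⟩, h.2⟩
    have hcard := Finset.card_union_of_disjoint hd
    rw [hun] at hcard
    obtain ⟨B, hB, hBc⟩ := Finset.exists_subset_card_eq (s := (Q \ U) \ K) (n := (U \ K).card)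
      (by omega)
    obtain ⟨φ, hφ, hφA, hφfix⟩ := exists_involution (A := U \ K) (B := B)
      (Finset.disjoint_of_subset_right hB hd) hBc.symm
    have h2 := pow_le_of_twist H (A := U \ K) (U := U) (K := K) hN hU hK φ hφ (by
      intro c hc
      apply hφfix
      · simp [hc]
      · intro h
        have := hB h
        simp only [Finset.mem_sdiff] at this
        exact this.2 hc) (Finset.sdiff_subset.trans hUQ) Finset.sdiff_subset (by
      intro x hx hxU
      have := hB (hφA x hx)
      simp only [Finset.mem_sdiff] at this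
      exact this.1.2 hxU) (by
      intro x hx
      have := hB (hφA x hx)
      simp only [Finset.mem_sdiff] at this
      exact this.1.1)
    by_contra hcon
    push Not at hcon
    have h3 : 2 ^ t ≤ 2 ^ (U \ K).card := Nat.pow_le_pow_right (by norm_num) hcon
    omega
  have hQK : (Q \ K).card = Q.card - K.card := Finset.card_sdiff_of_subset hKQ
  have hKle : K.card ≤ Q.card := Finset.card_le_card hKQ
  -- saturation of classes
  have hsatcls : ∀ a, ∀ x ∈ cls H Q a, ∀ b, Rel H Q x b → b ∈ cls H Q a := by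
    intro a x hx b hb
    rw [mem_cls] at hx ⊢
    exact hx.trans hb
  -- Claim: there is a giant class
  have hgiant : ∃ a ∈ Q, (Q \ K).card < 2 * (cls H Q a \ K).card := by
    by_contra hcon
    push Not at hcon
    have hsmall : ∀ a ∈ Q, (cls H Q a \ K).card < t := fun a ha =>
      claimA _ (cls_subset ha) (hsatcls a) (hcon a ha)
    obtain ⟨U, hUm, hUmax⟩ := Finset.exists_max_image
      (Q.powerset.filter (fun U => (∀ a ∈ U, ∀ b, Rel H Q a b → b ∈ U) ∧
        2 * (U \ K).card ≤ (Q \ K).card)) (fun U => (U \ K).card) ⟨∅, by simp⟩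
    simp only [Finset.mem_filter, Finset.mem_powerset] at hUm hUmax
    obtain ⟨hUQ, hUsat, hUle⟩ := hUm
    have hUt := claimA U hUQ hUsat hUle
    have hex : ∃ a ∈ Q \ K, a ∉ U := by
      by_contra hno
      push Not at hno
      have : Q \ K ⊆ U \ K := by
        intro x hx
        have h1 := hno x hx
        simp only [Finset.mem_sdiff] at hx ⊢
        exact ⟨h1, hx.2⟩
      have := Finset.card_le_card this
      omega
    obtain ⟨a, haQK, haU⟩ := hex
    simp only [Finset.mem_sdiff] at haQK
    have hdis : Disjoint (U \ K) (cls H Q a \ K) := by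
      rw [Finset.disjoint_left]
      intro x h1 h2
      simp only [Finset.mem_sdiff] at h1 h2
      exact haU (hUsat x h1.1 a (mem_cls.1 h2.1).symm)
    have hun : (U ∪ cls H Q a) \ K = (U \ K) ∪ (cls H Q a \ K) := Finset.union_sdiff_distrib _ _ _
    have hcu : ((U ∪ cls H Q a) \ K).card = (U \ K).card + (cls H Q a \ K).card := by
      rw [hun, Finset.card_union_of_disjoint hdis]
    have hpos : 0 < (cls H Q a \ K).card := by
      rw [Finset.card_pos]
      exact ⟨a, by simp [mem_cls, Rel.refl, haQK.2]⟩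
    have hsm := hsmall a haQK.1
    by_cases hle : 2 * ((U ∪ cls H Q a) \ K).card ≤ (Q \ K).card
    · have := hUmax (U ∪ cls H Q a) ⟨Finset.union_subset hUQ (cls_subset haQK.1), by
        intro x hx b hb
        rw [Finset.mem_union] at hx ⊢
        rcases hx with hx | hx
        · exact Or.inl (hUsat x hx b hb)
        · exact Or.inr (hsatcls a x hx b hb), hle⟩
      omega
    · omega
  obtain ⟨a, haQ, ha⟩ := hgiant
  have hU := claimA (Q \ cls H Q a) Finset.sdiff_subset (by
    intro x hx b hb
    simp only [Finset.mem_sdiff] at hx ⊢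
    refine ⟨hb.mem hx.1, fun hbc => hx.2 ?_⟩
    rw [mem_cls] at hbc ⊢
    exact hbc.trans hb.symm) (by
    have h1 : (Q \ cls H Q a) \ K = (Q \ K) \ (cls H Q a \ K) := by
      ext x; simp only [Finset.mem_sdiff]; tauto
    have h2 : cls H Q a \ K ⊆ Q \ K := Finset.sdiff_subset_sdiff (cls_subset haQ) (le_refl _)
    rw [h1, Finset.card_sdiff_of_subset h2]
    have := Finset.card_le_card h2
    omega)
  have hcl : (Q \ cls H Q a).card < 3 * t := by
    have h1 : (Q \ cls H Q a).card ≤ ((Q \ cls H Q a) \ K).card + K.card := by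
      have := Finset.card_le_card (Finset.subset_union_left (s₁ := Q \ cls H Q a) (s₂ := K))
      have h2 := Finset.card_sdiff_add_card (Q \ cls H Q a) K
      omega
    omega
  have hcc : (cls H Q a).card = Q.card - (Q \ cls H Q a).card := by
    have := Finset.card_sdiff_of_subset (cls_subset (H := H) haQ)
    have h2 := Finset.card_le_card (cls_subset (H := H) haQ)
    omega
  refine lt_of_le_of_lt (Finset.card_le_card ?_) hcl
  intro x hx
  simp only [Finset.mem_inter, Finset.mem_sdiff] at hx ⊢
  refine ⟨hx.2, fun hxa => ?_⟩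
  rw [mem_supp] at hx
  apply hx.1
  rw [← cls_eq (mem_cls.1 hxa), hcc]
  omega

end Pool.Agent.H66.SF
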