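import Pool.Agent.H66.SF.Support

/-!
The equivalence relation given by the three-cycles of a subgroup and its giant class.
-/

namespace Pool.Agent.H66.SF
open Equiv Equiv.Perm

variable {P : Type} [Fintype P] [DecidableEq P]

/-- two points are related if they are equal or both moved by one three-cycle of `H` inside `Q`. -/
def Rel (H : Subgroup (Perm P)) (Q : Finset P) (a b : P) : Prop :=
  a = b ∨ ∃ g ∈ H, g.IsThreeCycle ∧ g.support ⊆ Q ∧ a ∈ g.support ∧ b ∈ g.support

theorem Rel.refl (H : Subgroup (Perm P)) (Q : Finset P) (a : P) : Rel H Q a a := Or.inl rfl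

theorem Rel.symm {H : Subgroup (Perm P)} {Q : Finset P} {a b : P} (h : Rel H Q a b) :
    Rel H Q b a := by
  rcases h with h | ⟨g, h1, h2, h3, h4, h5⟩
  · exact Or.inl h.symm
  · exact Or.inr ⟨g, h1, h2, h3, h5, h4⟩

theorem conj_support (h g : Perm P) : (h * g * h⁻¹).support = g.support.map h.toEmbedding := by
  exact support_conj

theorem mem_conj_support {h g : Perm P} {a : P} (ha : a ∈ g.support) :
    h a ∈ (h * g * h⁻¹).support := by
  rw [conj_support]
  simpa using ha

theorem conj_threeCycle {g : Perm P} (h : Perm P) (hg : g.IsThreeCycle) :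
    (h * g * h⁻¹).IsThreeCycle := by
  rw [← card_support_eq_three_iff] at hg ⊢
  rw [conj_support, Finset.card_map, hg]

theorem conj_support_subset {g h : Perm P} {Q : Finset P} (hg : g.support ⊆ Q)
    (hh : h.support ⊆ Q) : (h * g * h⁻¹).support ⊆ Q := by
  refine (support_mul_le _ _).trans (sup_le ((support_mul_le _ _).trans (sup_le hh hg)) ?_)
  rw [support_inv]; exact hh

/-- in a three-cycle every moved point is mapped to every other one by `g` or its inverse -/
theorem threeCycle_apply {g : Perm P} (hg : g.IsThreeCycle) {a b : P} (ha : a ∈ g.support)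
    (hb : b ∈ g.support) (hab : a ≠ b) : g a = b ∨ g⁻¹ a = b := by
  have h1 : g.support = {a, g a, g (g a)} := (hg.support_eq_iff_mem_support).2 ha
  rw [h1] at hb
  simp only [Finset.mem_insert, Finset.mem_singleton] at hb
  rcases hb with hb | hb | hb
  · exact absurd hb.symm hab
  · exact Or.inl hb.symm
  · right
    have h3 : g (g (g a)) = a := by
      have h4 := hg.orderOf
      have h5 : g ^ 3 = 1 := by rw [← h4]; exact pow_orderOf_eq_one g
      have h6 : (g ^ 3) a = a := by rw [h5]; rfl
      simpa [pow_succ, Perm.mul_apply] using h6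
    rw [Perm.inv_eq_iff_eq, hb, h3]

theorem Rel.trans {H : Subgroup (Perm P)} {Q : Finset P} {a b c : P} (h1 : Rel H Q a b)
    (h2 : Rel H Q b c) : Rel H Q a c := by
  rcases h1 with rfl | ⟨g, hg, hg3, hgQ, hga, hgb⟩
  · exact h2
  rcases h2 with rfl | ⟨k, hk, hk3, hkQ, hkb, hkc⟩
  · exact Or.inr ⟨g, hg, hg3, hgQ, hga, hgb⟩
  by_cases hbc : b = c
  · subst hbc
    exact Or.inr ⟨g, hg, hg3, hgQ, hga, hgb⟩
  by_cases hka : a ∈ k.support
  · exact Or.inr ⟨k, hk, hk3, hkQ, hka, hkc⟩
  have hka' : k a = a := notMem_support.1 hka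
  rcases threeCycle_apply hk3 hkb hkc hbc with e | e
  · refine Or.inr ⟨k * g * k⁻¹, H.mul_mem (H.mul_mem hk hg) (H.inv_mem hk), conj_threeCycle k hg3,
      conj_support_subset hgQ hkQ, ?_, ?_⟩
    · have := mem_conj_support (h := k) hga
      rwa [hka'] at this
    · have := mem_conj_support (h := k) hgb
      rwa [e] at this
  · have hka'' : k⁻¹ a = a := by rw [Perm.inv_eq_iff_eq]; exact hka'.symm
    have h7 : (k⁻¹ * g * (k⁻¹)⁻¹).support ⊆ Q :=
      conj_support_subset hgQ (by rw [support_inv]; exact hkQ)
    refine Or.inr ⟨k⁻¹ * g * (k⁻¹)⁻¹, H.mul_mem (H.mul_mem (H.inv_mem hk) hg)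
      (H.inv_mem (H.inv_mem hk)), conj_threeCycle k⁻¹ hg3, h7, ?_, ?_⟩
    · have := mem_conj_support (h := k⁻¹) hga
      rwa [hka''] at this
    · have := mem_conj_support (h := k⁻¹) hgb
      rwa [e] at this

theorem Rel.map {H : Subgroup (Perm P)} {Q : Finset P} {a b : P} {h : Perm P} (hh : h ∈ H)
    (hQ : h.support ⊆ Q) (hab : Rel H Q a b) : Rel H Q (h a) (h b) := by
  rcases hab with rfl | ⟨g, hg, hg3, hgQ, hga, hgb⟩
  · exact Or.inl rfl
  · exact Or.inr ⟨h * g * h⁻¹, H.mul_mem (H.mul_mem hh hg) (H.inv_mem hh), conj_threeCycle h hg3,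
      conj_support_subset hgQ hQ, mem_conj_support hga, mem_conj_support hgb⟩

theorem Rel.mem {H : Subgroup (Perm P)} {Q : Finset P} {a b : P} (h : Rel H Q a b) (ha : a ∈ Q) :
    b ∈ Q := by
  rcases h with rfl | ⟨g, _, _, hgQ, _, hgb⟩
  · exact ha
  · exact hgQ hgb

open Classical in
/-- the class of a point -/
noncomputable def cls (H : Subgroup (Perm P)) (Q : Finset P) (a : P) : Finset P :=
  Finset.univ.filter (fun b => Rel H Q a b)

theorem mem_cls {H : Subgroup (Perm P)} {Q : Finset P} {a b : P} :
    b ∈ cls H Q a ↔ Rel H Q a b := by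
  simp [cls]

theorem cls_eq {H : Subgroup (Perm P)} {Q : Finset P} {a b : P} (h : Rel H Q a b) :
    cls H Q a = cls H Q b := by
  ext c
  rw [mem_cls, mem_cls]
  exact ⟨fun h1 => h.symm.trans h1, fun h1 => h.trans h1⟩

theorem cls_subset {H : Subgroup (Perm P)} {Q : Finset P} {a : P} (ha : a ∈ Q) :
    cls H Q a ⊆ Q := fun _ hb => (mem_cls.1 hb).mem ha

theorem cls_eq_singleton {H : Subgroup (Perm P)} {Q : Finset P} {a : P} (ha : a ∉ Q) :
    cls H Q a = {a} := by
  ext b
  rw [mem_cls, Finset.mem_singleton]
  constructor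
  · intro h
    rcases h with rfl | ⟨g, _, _, hgQ, hga, _⟩
    · rfl
    · exact absurd (hgQ hga) ha
  · rintro rfl; exact Rel.refl _ _ _

open Classical in
/-- the points outside the giant class -/
noncomputable def supp (H : Subgroup (Perm P)) (Q : Finset P) : Finset P :=
  Finset.univ.filter (fun a => ¬ Q.card < 2 * (cls H Q a).card)

theorem mem_supp {H : Subgroup (Perm P)} {Q : Finset P} {a : P} :
    a ∈ supp H Q ↔ ¬ Q.card < 2 * (cls H Q a).card := by
  simp [supp]

/-- two points outside `supp` are related -/
theorem rel_of_notMem_supp {H : Subgroup (Perm P)} {Q : Finset P} (hQ : 2 ≤ Q.card) {a b : P}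
    (ha : a ∉ supp H Q) (hb : b ∉ supp H Q) : Rel H Q a b := by
  rw [mem_supp, not_not] at ha hb
  have haQ : a ∈ Q := by
    by_contra h
    rw [cls_eq_singleton h] at ha
    simp at ha
    omega
  have hbQ : b ∈ Q := by
    by_contra h
    rw [cls_eq_singleton h] at hb
    simp at hb
    omega
  by_contra hab
  have hd : Disjoint (cls H Q a) (cls H Q b) := by
    rw [Finset.disjoint_left]
    intro c hca hcb
    exact hab ((mem_cls.1 hca).trans (mem_cls.1 hcb).symm)
  have h1 := Finset.card_le_card (Finset.union_subset (cls_subset (H := H) haQ)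
    (cls_subset (H := H) hbQ))
  rw [Finset.card_union_of_disjoint hd] at h1
  omega

theorem notMem_Q_mem_supp {H : Subgroup (Perm P)} {Q : Finset P} (hQ : 2 ≤ Q.card) {a : P}
    (ha : a ∉ Q) : a ∈ supp H Q := by
  rw [mem_supp, cls_eq_singleton ha]
  simp
  omega

/-- every three-cycle on related points belongs to `H` -/
theorem threeCycle_mem {H : Subgroup (Perm P)} {Q : Finset P} {C : Finset P}
    (hC : ∀ a ∈ C, ∀ b ∈ C, Rel H Q a b) {k : Perm P} (hk : k.IsThreeCycle)
    (hkC : k.support ⊆ C) : k ∈ H := by
  -- it is enough to find a three-cycle of `H` with the same support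
  have suff : (∃ g ∈ H, g.IsThreeCycle ∧ g.support = k.support) → k ∈ H := by
    rintro ⟨g, hg, hg3, hs⟩
    obtain ⟨x, hx⟩ : k.support.Nonempty := by
      rw [← Finset.card_pos, hk.card_support]; norm_num
    have hxg : x ∈ g.support := by rw [hs]; exact hx
    have hkx : k x ∈ g.support := by rw [hs]; exact apply_mem_support.2 hx
    have hne : x ≠ k x := fun e => (mem_support.1 hx) e.symm
    rcases threeCycle_apply hg3 hxg hkx hne with e | e
    · have : g = k := by
        have h1 := (hg3.eq_swap_mul_swap_iff_mem_support).2 hxg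
        have h2 := (hk.eq_swap_mul_swap_iff_mem_support).2 hx
        have h3 : g (g x) = k (k x) := by
          have h4 : g.support = {x, g x, g (g x)} := (hg3.support_eq_iff_mem_support).2 hxg
          have h5 : k.support = {x, k x, k (k x)} := (hk.support_eq_iff_mem_support).2 hx
          have h6 : k (k x) ∈ g.support := by
            rw [hs]; exact apply_mem_support.2 (apply_mem_support.2 hx)
          rw [h4] at h6
          simp only [Finset.mem_insert, Finset.mem_singleton] at h6
          rcases h6 with h6 | h6 | h6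
          · exfalso
            have h7 := hk.card_support
            rw [h5, h6] at h7
            have : ({x, k x, x} : Finset P) = {x, k x} := by ext z; simp; tauto
            rw [this] at h7
            have := Finset.card_le_two (a := x) (b := k x)
            omega
          · exfalso
            rw [e] at h6
            exact hne (k.injective h6).symm
          · exact h6.symm
        rw [h1, h2, h3, e]
      rwa [← this]
    · have hg3' := hg3.inv
      have hs' : g⁻¹.support = k.support := by rw [support_inv]; exact hs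
      have hxg' : x ∈ g⁻¹.support := by rw [hs']; exact hx
      have : g⁻¹ = k := by
        have h1 := (hg3'.eq_swap_mul_swap_iff_mem_support).2 hxg'
        have h2 := (hk.eq_swap_mul_swap_iff_mem_support).2 hx
        have h3 : g⁻¹ (g⁻¹ x) = k (k x) := by
          have h4 : g⁻¹.support = {x, g⁻¹ x, g⁻¹ (g⁻¹ x)} :=
            (hg3'.support_eq_iff_mem_support).2 hxg'
          have h5 : k.support = {x, k x, k (k x)} := (hk.support_eq_iff_mem_support).2 hx
          have h6 : k (k x) ∈ g⁻¹.support := by
            rw [hs']; exact apply_mem_support.2 (apply_mem_support.2 hx)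
          rw [h4] at h6
          simp only [Finset.mem_insert, Finset.mem_singleton] at h6
          rcases h6 with h6 | h6 | h6
          · exfalso
            have h7 := hk.card_support
            rw [h5, h6] at h7
            have : ({x, k x, x} : Finset P) = {x, k x} := by ext z; simp; tauto
            rw [this] at h7
            have := Finset.card_le_two (a := x) (b := k x)
            omega
          · exfalso
            rw [e] at h6
            exact hne (k.injective h6).symm
          · exact h6.symm
        rw [h1, h2, h3, e]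
      rw [← this]
      exact H.inv_mem hg
  apply suff
  obtain ⟨x, hx⟩ : k.support.Nonempty := by
    rw [← Finset.card_pos, hk.card_support]; norm_num
  obtain ⟨y, hy, z, hz, hxy, hxz, hyz, hsupp⟩ : ∃ y ∈ C, ∃ z ∈ C, x ≠ y ∧ x ≠ z ∧ y ≠ z ∧
      k.support = {x, y, z} := by
    have h5 : k.support = {x, k x, k (k x)} := (hk.support_eq_iff_mem_support).2 hx
    have h7 := hk.card_support
    refine ⟨k x, hkC (apply_mem_support.2 hx), k (k x),
      hkC (apply_mem_support.2 (apply_mem_support.2 hx)), ?_, ?_, ?_, h5⟩
    · exact fun e => (mem_support.1 hx) e.symm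
    · intro e
      rw [h5, ← e] at h7
      have : ({x, k x, x} : Finset P) = {x, k x} := by ext z; simp; tauto
      rw [this] at h7
      have := Finset.card_le_two (a := x) (b := k x)
      omega
    · intro e
      exact (mem_support.1 hx) (k.injective e.symm)
  have hxC : x ∈ C := hkC hx
  rw [hsupp]
  -- a three-cycle of `H` through `x` and `y`
  rcases hC x hxC y hy with e | ⟨g, hg, hg3, hgQ, hgx, hgy⟩
  · exact absurd e hxy
  have hgc := hg3.card_support
  -- third point
  obtain ⟨u, hu⟩ : ∃ u, g.support = {x, y, u} := by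
    have h1 : ({x, y} : Finset P) ⊆ g.support := by
      intro w hw; simp only [Finset.mem_insert, Finset.mem_singleton] at hw
      rcases hw with rfl | rfl <;> assumption
    have h2 : (g.support \ {x, y}).card = 1 := by
      rw [Finset.card_sdiff_of_subset h1, hgc, Finset.card_pair hxy]
    obtain ⟨u, hu⟩ := Finset.card_eq_one.1 h2
    refine ⟨u, ?_⟩
    rw [← Finset.sdiff_union_of_subset h1, hu]
    ext w; simp only [Finset.mem_union, Finset.mem_insert, Finset.mem_singleton]; tauto
  have hux : u ≠ x := by
    rintro rfl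
    rw [hu] at hgc
    have : ({u, y, u} : Finset P) = {u, y} := by ext z; simp; tauto
    rw [this] at hgc
    have := Finset.card_le_two (a := u) (b := y)
    omega
  have huy : u ≠ y := by
    rintro rfl
    rw [hu] at hgc
    have : ({x, u, u} : Finset P) = {x, u} := by ext z; simp
    rw [this] at hgc
    have := Finset.card_le_two (a := x) (b := u)
    omega
  by_cases huz : u = z
  · subst huz
    exact ⟨g, hg, hg3, hu⟩
  have hug : u ∈ g.support := by rw [hu]; simp
  have hrel : Rel H Q u z := Rel.trans (H := H) (Q := Q) (b := x)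
    (Or.inr ⟨g, hg, hg3, hgQ, hug, hgx⟩) (hC x hxC z hz)
  rcases hrel with e | ⟨h, hh, hh3, hhQ, hhu, hhz⟩
  · exact absurd e huz
  -- choose the direction with `h u = z`
  obtain ⟨h, hh, hh3, hhQ, hhu, hhz, huz'⟩ : ∃ h ∈ H, h.IsThreeCycle ∧ h.support ⊆ Q ∧
      u ∈ h.support ∧ z ∈ h.support ∧ h u = z := by
    rcases threeCycle_apply hh3 hhu hhz huz with e | e
    · exact ⟨h, hh, hh3, hhQ, hhu, hhz, e⟩
    · exact ⟨h⁻¹, H.inv_mem hh, hh3.inv, by rwa [support_inv], by rwa [support_inv],
        by rwa [support_inv], e⟩
  have hhc : h.support = {u, z, h z} := by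
    have := (hh3.support_eq_iff_mem_support).2 hhu
    rwa [huz'] at this
  have h3 : h (h z) = u := by
    have h4 := hh3.orderOf
    have h5 : h ^ 3 = 1 := by rw [← h4]; exact pow_orderOf_eq_one h
    have h6 : (h ^ 3) u = u := by rw [h5]; rfl
    rw [← huz']
    simpa [pow_succ, Perm.mul_apply] using h6
  have conj : ∀ f : Perm P, f ∈ H → ({f x, f y, f u} : Finset P) = {x, y, z} →
      ∃ g ∈ H, g.IsThreeCycle ∧ g.support = {x, y, z} := by
    intro f hf he
    refine ⟨f * g * f⁻¹, H.mul_mem (H.mul_mem hf hg) (H.inv_mem hf), conj_threeCycle f hg3, ?_⟩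
    rw [conj_support, hu, ← he]
    simp [Finset.map_insert]
  by_cases hzx : h z = x
  · -- `h`: u → z → x → u ; the inverse maps x → z, u → x
    apply conj h⁻¹ (H.inv_mem hh)
    have e1 : h⁻¹ x = z := by rw [Perm.inv_eq_iff_eq, hzx]
    have e2 : h⁻¹ u = x := by rw [Perm.inv_eq_iff_eq, ← hzx, h3]
    have e3 : h⁻¹ y = y := by
      rw [Perm.inv_eq_iff_eq]
      symm
      apply notMem_support.1
      rw [hhc, hzx]
      simp only [Finset.mem_insert, Finset.mem_singleton, not_or]
      exact ⟨huy.symm, hyz, hxy.symm⟩
    rw [e1, e2, e3]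
    ext w; simp only [Finset.mem_insert, Finset.mem_singleton]; tauto
  · by_cases hzy : h z = y
    · apply conj h⁻¹ (H.inv_mem hh)
      have e1 : h⁻¹ y = z := by rw [Perm.inv_eq_iff_eq, hzy]
      have e2 : h⁻¹ u = y := by rw [Perm.inv_eq_iff_eq, ← hzy, h3]
      have e3 : h⁻¹ x = x := by
        rw [Perm.inv_eq_iff_eq]
        symm
        apply notMem_support.1
        rw [hhc, hzy]
        simp only [Finset.mem_insert, Finset.mem_singleton, not_or]
        exact ⟨hux.symm, hxz, hxy⟩
      rw [e1, e2, e3]
      ext w; simp only [Finset.mem_insert, Finset.mem_singleton]; tauto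
    · apply conj h hh
      have e1 : h x = x := by
        apply notMem_support.1
        rw [hhc]
        simp only [Finset.mem_insert, Finset.mem_singleton, not_or]
        exact ⟨hux.symm, hxz, fun e => hzx e.symm⟩
      have e2 : h y = y := by
        apply notMem_support.1
        rw [hhc]
        simp only [Finset.mem_insert, Finset.mem_singleton, not_or]
        exact ⟨huy.symm, hyz, fun e => hzy e.symm⟩
      rw [e1, e2, huz']

/-- every even permutation which fixes `supp` pointwise belongs to `H` -/
theorem even_mem {H : Subgroup (Perm P)} {Q : Finset P} (hQ : 2 ≤ Q.card) {g : Perm P}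
    (hg : sign g = 1) (hs : Disjoint g.support (supp H Q)) : g ∈ H := by
  classical
  set C : Finset P := (supp H Q)ᶜ with hC
  have hCrel : ∀ a ∈ C, ∀ b ∈ C, Rel H Q a b := by
    intro a ha b hb
    rw [hC, Finset.mem_compl] at ha hb
    exact rel_of_notMem_supp hQ ha hb
  have hgC : g.support ⊆ C := by
    intro a ha
    rw [hC, Finset.mem_compl]
    exact Finset.disjoint_left.1 hs ha
  -- write `g` as the extension of an even permutation of `C`
  have hmap : ∀ k ∈ alternatingGroup C, Perm.ofSubtype (p := (· ∈ C)) k ∈ H := by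
    intro k hk
    rw [← closure_three_cycles_eq_alternating] at hk
    induction hk using Subgroup.closure_induction with
    | mem x hx =>
      apply threeCycle_mem hCrel (k := Perm.ofSubtype x)
      · have hx3 : x.IsThreeCycle := hx
        have h1 := hx3.cycleType
        have h2 : (Perm.ofSubtype (p := (· ∈ C)) x).cycleType = x.cycleType := by
          convert cycleType_ofSubtype (p := (· ∈ C)) (g := x)
        exact h2.trans h1
      · intro z hz
        by_contra hzS
        exact (mem_support.1 hz) (Perm.ofSubtype_apply_of_not_mem x hzS)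
    | one => rw [map_one]; exact H.one_mem
    | mul x y _ _ hx hy => rw [map_mul]; exact H.mul_mem hx hy
    | inv x _ hx => rw [map_inv]; exact H.inv_mem hx
  have hp : ∀ x, g x ∈ C ↔ x ∈ C := by
    intro x
    by_cases hx : x ∈ g.support
    · exact ⟨fun _ => hgC hx, fun _ => hgC (apply_mem_support.2 hx)⟩
    · rw [notMem_support.1 hx]
  have hg' : Perm.ofSubtype (g.subtypePerm hp) = g := by
    apply Perm.ofSubtype_subtypePerm
    intro x hx
    exact hgC (mem_support.2 hx)
  rw [← hg']
  apply hmap
  rw [mem_alternatingGroup, ← Perm.sign_ofSubtype, hg', hg]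

end Pool.Agent.H66.SF
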