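import Pool.Agent.H66.SF.Sound

/-!
Symmetric proofs: every block has few inequivalent images.
-/

set_option linter.unusedSectionVars false

namespace Pool.Agent.H66.SF
open Equiv Equiv.Perm Fml

variable {P M V : Type} [Fintype P] [DecidableEq P] [DecidableEq M]

theorem Block.mem_subs : ∀ {C : Fml V} {b : Bool} {B : Fml V}, Block C b B → B ∈ C.subs := by
  intro C
  induction C with
  | var v => intro b B h; exact h.elim
  | neg A ih => intro b B h; exact Or.inr (ih h)
  | imp A C ih1 ih2 =>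
    intro b B h
    rcases h with h | h | ⟨_, rfl⟩
    · exact Or.inr (Or.inl (ih1 h))
    · exact Or.inr (Or.inr (ih2 h))
    · exact Or.inl rfl

theorem self_mem_subs (C : Fml V) : C ∈ C.subs := by
  cases C <;> simp [Fml.subs]

theorem Block.ren {I : Interp P M V} (σ : Perm P) : ∀ {C : Fml V} {b : Bool} {B : Fml V},
    Block C b B → Block (ren I σ C) b (ren I σ B) := by
  intro C
  induction C with
  | var v => intro b B h; exact h.elim
  | neg A ih => intro b B h; exact ih h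
  | imp A C ih1 ih2 =>
    intro b B h
    rcases h with h | h | ⟨h1, rfl⟩
    · exact Or.inl (ih1 h)
    · exact Or.inr (Or.inl (ih2 h))
    · exact Or.inr (Or.inr ⟨h1, rfl⟩)

/-- blocks of rearranged formulas are rearrangements of each other -/
theorem Block.same {A A' : Fml V} (h : Same A A') :
    (∀ b B, Block A b B → ∃ B', Block A' b B' ∧ Same B B') ∧
    (∀ b B, Block A' b B → ∃ B', Block A b B' ∧ Same B B') := by
  induction h with
  | refl A => exact ⟨fun b B h => ⟨B, h, Same.refl _⟩, fun b B h => ⟨B, h, Same.refl _⟩⟩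
  | symm _ ih => exact ⟨ih.2, ih.1⟩
  | trans _ _ ih1 ih2 =>
    constructor
    · intro b B h
      obtain ⟨B1, h1, s1⟩ := ih1.1 b B h
      obtain ⟨B2, h2, s2⟩ := ih2.1 b B1 h1
      exact ⟨B2, h2, s1.trans s2⟩
    · intro b B h
      obtain ⟨B1, h1, s1⟩ := ih2.2 b B h
      obtain ⟨B2, h2, s2⟩ := ih1.2 b B1 h1
      exact ⟨B2, h2, s1.trans s2⟩
  | neg _ ih => exact ⟨fun b B h => ih.1 _ B h, fun b B h => ih.2 _ B h⟩
  | @imp A B C D h1 h2 ih1 ih2 =>
    constructor
    · intro b X h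
      rcases h with h | h | ⟨hb, rfl⟩
      · obtain ⟨Y, hY, sY⟩ := ih1.1 _ X h
        exact ⟨Y, Or.inl hY, sY⟩
      · obtain ⟨Y, hY, sY⟩ := ih2.1 _ X h
        exact ⟨Y, Or.inr (Or.inl hY), sY⟩
      · exact ⟨_, Or.inr (Or.inr ⟨hb, rfl⟩), Same.imp h1 h2⟩
    · intro b X h
      rcases h with h | h | ⟨hb, rfl⟩
      · obtain ⟨Y, hY, sY⟩ := ih1.2 _ X h
        exact ⟨Y, Or.inl hY, sY⟩
      · obtain ⟨Y, hY, sY⟩ := ih2.2 _ X h
        exact ⟨Y, Or.inr (Or.inl hY), sY⟩
      · exact ⟨_, Or.inr (Or.inr ⟨hb, rfl⟩), (Same.imp h1 h2).symm⟩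
  | dneg A =>
    constructor
    · intro b B h
      have h' : Block A (!(!b)) B := h
      rw [Bool.not_not] at h'
      exact ⟨B, h', Same.refl _⟩
    · intro b B h
      refine ⟨B, ?_, Same.refl _⟩
      show Block A (!(!b)) B
      rwa [Bool.not_not]
  | exch A B C =>
    constructor
    · intro b X h
      rcases h with h | (h | h | ⟨h, _⟩) | ⟨hb, rfl⟩
      · exact ⟨X, Or.inr (Or.inl (Or.inl h)), Same.refl _⟩
      · exact ⟨X, Or.inl h, Same.refl _⟩
      · exact ⟨X, Or.inr (Or.inl (Or.inr (Or.inl h))), Same.refl _⟩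
      · exact absurd h (by simp)
      · exact ⟨_, Or.inr (Or.inr ⟨hb, rfl⟩), Same.exch _ _ _⟩
    · intro b X h
      rcases h with h | (h | h | ⟨h, _⟩) | ⟨hb, rfl⟩
      · exact ⟨X, Or.inr (Or.inl (Or.inl h)), Same.refl _⟩
      · exact ⟨X, Or.inl h, Same.refl _⟩
      · exact ⟨X, Or.inr (Or.inl (Or.inr (Or.inl h))), Same.refl _⟩
      · exact absurd h (by simp)
      · exact ⟨_, Or.inr (Or.inr ⟨hb, rfl⟩), Same.exch _ _ _⟩
  | contr A B =>
    constructor
    · intro b X h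
      rcases h with h | (h | h | ⟨h, _⟩) | ⟨hb, rfl⟩
      · exact ⟨X, Or.inl h, Same.refl _⟩
      · exact ⟨X, Or.inl h, Same.refl _⟩
      · exact ⟨X, Or.inr (Or.inl h), Same.refl _⟩
      · exact absurd h (by simp)
      · exact ⟨_, Or.inr (Or.inr ⟨hb, rfl⟩), Same.contr _ _⟩
    · intro b X h
      rcases h with h | h | ⟨hb, rfl⟩
      · exact ⟨X, Or.inl h, Same.refl _⟩
      · exact ⟨X, Or.inr (Or.inl (Or.inr (Or.inl h))), Same.refl _⟩
      · exact ⟨_, Or.inr (Or.inr ⟨hb, rfl⟩), (Same.contr _ _).symm⟩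
  | cpos A B =>
    constructor
    · intro b X h
      rcases h with h | h | ⟨hb, rfl⟩
      · exact ⟨X, Or.inr (Or.inl h), Same.refl _⟩
      · exact ⟨X, Or.inl h, Same.refl _⟩
      · exact ⟨_, Or.inr (Or.inr ⟨hb, rfl⟩), Same.cpos _ _⟩
    · intro b X h
      rcases h with h | h | ⟨hb, rfl⟩
      · exact ⟨X, Or.inr (Or.inl h), Same.refl _⟩
      · exact ⟨X, Or.inl h, Same.refl _⟩
      · exact ⟨_, Or.inr (Or.inr ⟨hb, rfl⟩), (Same.cpos _ _).symm⟩

/-- `L` is closed, up to rearrangement, under the permutations with support in `Q`. -/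
def SymmUnder (I : Interp P M V) (Q : Finset P) (L : List (Fml V)) : Prop :=
  ∀ σ : Perm P, σ.support ⊆ Q → ∀ C ∈ L, ∃ C' ∈ L, Same (ren I σ C) C'

theorem subs_finite (C : Fml V) : C.subs.Finite := by
  induction C with
  | var v => exact Set.finite_singleton _
  | neg A ih => exact ih.insert _
  | imp A B ih1 ih2 => exact (ih1.union ih2).insert _

theorem subsOf_finite (L : List (Fml V)) : {B : Fml V | ∃ A ∈ L, B ∈ A.subs}.Finite := by
  have : {B : Fml V | ∃ A ∈ L, B ∈ A.subs} = ⋃ A ∈ {A | A ∈ L}, A.subs := by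
    ext B; simp
  rw [this]
  exact Set.Finite.biUnion (List.finite_toSet L) (fun A _ => subs_finite A)

theorem indexLE_of_images {I : Interp P M V} {Q : Finset P} {L : List (Fml V)} {B : Fml V}
    (h : ∀ σ : Perm P, σ.support ⊆ Q → ∃ B', (∃ A ∈ L, B' ∈ A.subs) ∧ Same (ren I σ B) B') :
    IndexLE (stab I B) Q (numSubs L) := by
  intro T hT hT'
  classical
  have h' : ∀ σ : Perm P, ∃ B', (σ.support ⊆ Q → (∃ A ∈ L, B' ∈ A.subs) ∧
      Same (ren I σ B) B') := by
    intro σ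
    by_cases hσ : σ.support ⊆ Q
    · obtain ⟨B', h1, h2⟩ := h σ hσ
      exact ⟨B', fun _ => ⟨h1, h2⟩⟩
    · exact ⟨B, fun h => absurd h hσ⟩
  choose f hf using h'
  unfold numSubs
  rw [← Set.ncard_coe_finset T]
  apply Set.ncard_le_ncard_of_injOn f _ _ (subsOf_finite L)
  · intro σ hσ
    exact (hf σ (hT σ hσ)).1
  · intro σ hσ τ hτ he
    apply hT' σ hσ τ hτ
    have h1 := (hf σ (hT σ hσ)).2
    have h2 := (hf τ (hT τ hτ)).2
    have he' : f σ = f τ := he
    rw [he'] at h1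
    have h3 : Same (ren I τ B) (ren I σ B) := h2.trans h1.symm
    have h4 := Same.ren (I := I) σ⁻¹ h3
    rw [ren_inv_ren, ← ren_mul] at h4
    exact h4

theorem indexLE_block {I : Interp P M V} {Q : Finset P} {L : List (Fml V)}
    (hL : SymmUnder I Q L) {C : Fml V} (hC : C ∈ L) {B : Fml V} (hB : Block C true B) :
    IndexLE (stab I B) Q (numSubs L) := by
  apply indexLE_of_images
  intro σ hσ
  obtain ⟨C', hC', hs⟩ := hL σ hσ C hC
  obtain ⟨B', h1, h2⟩ := (Block.same hs).1 true _ (Block.ren (I := I) σ hB)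
  exact ⟨B', ⟨C', hC', h1.mem_subs⟩, h2⟩

theorem indexLE_line {I : Interp P M V} {Q : Finset P} {L : List (Fml V)}
    (hL : SymmUnder I Q L) {C : Fml V} (hC : C ∈ L) :
    IndexLE (stab I C) Q (numSubs L) := by
  apply indexLE_of_images
  intro σ hσ
  obtain ⟨C', hC', hs⟩ := hL σ hσ C hC
  exact ⟨C', ⟨C', hC', self_mem_subs _⟩, hs⟩

theorem numSubs_pos {L : List (Fml V)} {C : Fml V} (hC : C ∈ L) : 1 ≤ numSubs L := by
  unfold numSubs
  rw [Nat.one_le_iff_ne_zero, ← Nat.pos_iff_ne_zero, Set.ncard_pos (subsOf_finite L)]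
  exact ⟨C, C, hC, self_mem_subs C⟩

/-- **Main theorem, abstract form**: the lines of a symmetric proof with less than `2 ^ t`
distinct subformulas are valid and all their blocks have small support. -/
theorem symm_valid {I : Interp P M V} {Q : Finset P} {R r t s : ℕ} (hts : 3 * t ≤ s)
    (hM : ∀ F : Finset M, F.card < R → ∃ x, x ∉ F) (hR : Fintype.card P ≤ R + 1)
    (hT : ∀ v, (I.touch v).card ≤ s) {Ax : Finset (Fml ℕ)} (hAx : ∀ a ∈ Ax, ∀ τ, a.eval τ)
    (hr : ∀ a ∈ Ax, fsize a ≤ r) (hroom : (r + 5) * s + 2 ≤ Q.card)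
    {L : List (Fml V)} (hL : IsProof Ax L) (hsym : SymmUnder I Q L)
    (ht : numSubs L < 2 ^ t) :
    ∀ C ∈ L, Valid I Q (2 * s) C ∧ Small I Q s C true := by
  have h6 : 6 * t ≤ Q.card := by nlinarith
  have hQ2 : 2 ≤ Q.card := by omega
  have hs : ∀ C ∈ L, Small I Q s C true := fun C hC B hB =>
    (supp_inter_card_lt _ (indexLE_block hsym hC hB) ht h6).le.trans hts
  have hf : ∀ C ∈ L, (fsupp I Q C ∩ Q).card ≤ s := fun C hC =>
    (supp_inter_card_lt _ (indexLE_line hsym hC) ht h6).le.trans hts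
  intro C hC
  exact ⟨proof_valid hQ2 hM hR hT hAx hr hroom hL hs hf C hC, hs C hC⟩

end Pool.Agent.H66.SF
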