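import Mathlib

/-!
Symmetric Frege proofs: basic definitions.

Formulas over negation and implication, Frege systems with modus ponens, proofs as lists of
formulas (newest line first), and rearrangement of formulas.
-/

namespace Pool.Agent.H66.SF

/-- Propositional formulas over the connectives negation and implication. -/
inductive Fml (V : Type) : Type
  | var : V → Fml V
  | neg : Fml V → Fml V
  | imp : Fml V → Fml V → Fml V

namespace Fml

variable {V W : Type}

/-- Truth of a formula under an assignment. -/
def eval (τ : V → Prop) : Fml V → Prop
  | var v => τ v
  | neg A => ¬ eval τ A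
  | imp A B => eval τ A → eval τ B

/-- Simultaneous substitution of formulas for variables. -/
def subst (θ : V → Fml W) : Fml V → Fml W
  | var v => θ v
  | neg A => neg (subst θ A)
  | imp A B => imp (subst θ A) (subst θ B)

/-- Renaming of variables. -/
def rename (f : V → W) (A : Fml V) : Fml W := A.subst (fun v => var (f v))

/-- The set of all subformulas of a formula. -/
def subs : Fml V → Set (Fml V)
  | var v => {var v}
  | neg A => insert (neg A) (subs A)
  | imp A B => insert (imp A B) (subs A ∪ subs B)

/-- Two formulas are rearrangements of each other: the least congruence which contains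
double negation, exchange of antecedents, contraction of equal antecedents and contraposition. -/
inductive Same : Fml V → Fml V → Prop
  | refl (A : Fml V) : Same A A
  | symm {A B : Fml V} : Same A B → Same B A
  | trans {A B C : Fml V} : Same A B → Same B C → Same A C
  | neg {A B : Fml V} : Same A B → Same A.neg B.neg
  | imp {A B C D : Fml V} : Same A B → Same C D → Same (A.imp C) (B.imp D)
  | dneg (A : Fml V) : Same A.neg.neg A
  | exch (A B C : Fml V) : Same (A.imp (B.imp C)) (B.imp (A.imp C))
  | contr (A B : Fml V) : Same (A.imp (A.imp B)) (A.imp B)
  | cpos (A B : Fml V) : Same (A.imp B) (B.neg.imp A.neg)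

end Fml

/-- `IsProof Ax P`: the list `P` (newest line first) is a derivation in which every line is a
substitution instance of a scheme in `Ax` or follows by modus ponens from earlier lines. -/
inductive IsProof {V : Type} (Ax : Finset (Fml ℕ)) : List (Fml V) → Prop
  | nil : IsProof Ax []
  | ax {P : List (Fml V)} (a : Fml ℕ) (θ : ℕ → Fml V) :
      IsProof Ax P → a ∈ Ax → IsProof Ax (a.subst θ :: P)
  | mp {P : List (Fml V)} (A B : Fml V) :
      IsProof Ax P → A ∈ P → A.imp B ∈ P → IsProof Ax (B :: P)

/-- Number of distinct subformulas of the formulas in a list. -/
noncomputable def numSubs {V : Type} (P : List (Fml V)) : ℕ :=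
  {B : Fml V | ∃ A ∈ P, B ∈ A.subs}.ncard

end Pool.Agent.H66.SF
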