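import Pool.Agent.H66.SF.Val

/-!
Local evaluation of formulas by partial injections: the evaluation and its invariance.
-/

set_option linter.unusedSectionVars false

namespace Pool.Agent.H66.SF
open Equiv Equiv.Perm

/-- Variables on which permutations of `P` act and which have a truth value under every partial
injection `P → M` whose domain contains the touched points. -/
structure Interp (P M V : Type) [DecidableEq P] [DecidableEq M] where
  act : Perm P → V → V
  act_one : ∀ v, act 1 v = v
  act_mul : ∀ g h v, act (g * h) v = act g (act h v)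
  touch : V → Finset P
  tr : V → Finset (P × M) → Prop
  touch_act : ∀ g v, touch (act g v) = (touch v).image g
  tr_act : ∀ g v ν, tr (act g v) (mv g ν) ↔ tr v ν
  tr_mono : ∀ v (ν ν' : Finset (P × M)), PM ν' → ν ⊆ ν' → touch v ⊆ dom ν → (tr v ν ↔ tr v ν')

namespace Fml

variable {V W X : Type}

theorem Same.subst {A B : Fml V} (h : Same A B) (θ : V → Fml W) :
    Same (A.subst θ) (B.subst θ) := by
  induction h with
  | refl A => exact Same.refl _
  | symm _ ih => exact ih.symm
  | trans _ _ ih1 ih2 => exact ih1.trans ih2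
  | neg _ ih => exact Same.neg ih
  | imp _ _ ih1 ih2 => exact Same.imp ih1 ih2
  | dneg A => exact Same.dneg _
  | exch A B C => exact Same.exch _ _ _
  | contr A B => exact Same.contr _ _
  | cpos A B => exact Same.cpos _ _

theorem Same.rename {A B : Fml V} (h : Same A B) (f : V → W) :
    Same (A.rename f) (B.rename f) := h.subst _

theorem rename_rename (f : V → W) (g : W → X) (A : Fml V) :
    (A.rename f).rename g = A.rename (g ∘ f) := by
  induction A with
  | var v => rfl
  | neg A ih => simp only [Fml.rename, Fml.subst] at ih ⊢; rw [ih]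
  | imp A B ih1 ih2 => simp only [Fml.rename, Fml.subst] at ih1 ih2 ⊢; rw [ih1, ih2]

theorem rename_id (A : Fml V) : A.rename (fun v => v) = A := by
  induction A with
  | var v => rfl
  | neg A ih => simp only [Fml.rename, Fml.subst] at ih ⊢; rw [ih]
  | imp A B ih1 ih2 => simp only [Fml.rename, Fml.subst] at ih1 ih2 ⊢; rw [ih1, ih2]

end Fml

open Fml

variable {P M V : Type} [Fintype P] [DecidableEq P] [DecidableEq M]

/-- renaming by a permutation -/
def ren (I : Interp P M V) (g : Perm P) (C : Fml V) : Fml V := C.rename (I.act g)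

theorem ren_mul (I : Interp P M V) (g h : Perm P) (C : Fml V) :
    ren I (g * h) C = ren I g (ren I h C) := by
  unfold ren
  rw [rename_rename]
  congr 1
  funext v
  exact I.act_mul g h v

theorem ren_one (I : Interp P M V) (C : Fml V) : ren I 1 C = C := by
  unfold ren
  have : I.act 1 = fun v => v := funext I.act_one
  rw [this, rename_id]

theorem ren_inv_ren (I : Interp P M V) (g : Perm P) (C : Fml V) :
    ren I g⁻¹ (ren I g C) = C := by
  rw [← ren_mul, inv_mul_cancel, ren_one]

theorem Same.ren {I : Interp P M V} (g : Perm P) {A B : Fml V} (h : Same A B) :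
    Same (ren I g A) (ren I g B) := h.rename _

/-- the stabiliser of a formula up to rearrangement -/
def stab (I : Interp P M V) (C : Fml V) : Subgroup (Perm P) where
  carrier := {g | Same (ren I g C) C}
  one_mem' := by
    show Same (SF.ren I 1 C) C
    rw [ren_one]; exact Fml.Same.refl _
  mul_mem' := by
    intro g h hg hh
    show Same (SF.ren I (g * h) C) C
    rw [ren_mul]
    exact (Same.ren g hh).trans hg
  inv_mem' := by
    intro g hg
    show Same (SF.ren I g⁻¹ C) C
    have := (Same.ren (I := I) g⁻¹ hg).symm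
    rwa [ren_inv_ren] at this

theorem mem_stab {I : Interp P M V} {C : Fml V} {g : Perm P} :
    g ∈ stab I C ↔ Same (ren I g C) C := Iff.rfl

/-- the support of a formula: the points outside the giant class of its stabiliser -/
noncomputable def fsupp (I : Interp P M V) (Q : Finset P) (C : Fml V) : Finset P :=
  supp (stab I C) Q

theorem stab_same {I : Interp P M V} {A B : Fml V} (h : Same A B) : stab I A = stab I B := by
  ext g
  rw [mem_stab, mem_stab]
  constructor
  · intro h1; exact (Same.ren g h.symm).trans (h1.trans h)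
  · intro h1; exact (Same.ren g h).trans (h1.trans h.symm)

theorem fsupp_same {I : Interp P M V} {Q : Finset P} {A B : Fml V} (h : Same A B) :
    fsupp I Q A = fsupp I Q B := by
  unfold fsupp; rw [stab_same h]

theorem rel_conj {H H' : Subgroup (Perm P)} {Q : Finset P} {σ : Perm P} (hσ : σ.support ⊆ Q)
    (h : ∀ g, g ∈ H → σ * g * σ⁻¹ ∈ H') {a b : P} (hab : Rel H Q a b) :
    Rel H' Q (σ a) (σ b) := by
  rcases hab with rfl | ⟨g, hg, hg3, hgQ, hga, hgb⟩
  · exact Or.inl rfl
  · exact Or.inr ⟨σ * g * σ⁻¹, h g hg, conj_threeCycle σ hg3, conj_support_subset hgQ hσ,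
      mem_conj_support hga, mem_conj_support hgb⟩

theorem supp_conj {H H' : Subgroup (Perm P)} {Q : Finset P} {σ : Perm P} (hσ : σ.support ⊆ Q)
    (h : ∀ g, g ∈ H → σ * g * σ⁻¹ ∈ H') (h' : ∀ g, g ∈ H' → σ⁻¹ * g * σ ∈ H) :
    supp H' Q = (supp H Q).image σ := by
  have hσ' : (σ⁻¹).support ⊆ Q := by rwa [support_inv]
  have hrel : ∀ a b, Rel H' Q (σ a) (σ b) ↔ Rel H Q a b := by
    intro a b
    constructor
    · intro h1
      have := rel_conj (H := H') (H' := H) hσ' (by intro g hg; rw [inv_inv]; exact h' g hg) h1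
      simpa using this
    · exact rel_conj hσ h
  have hcard : ∀ a, (cls H' Q (σ a)).card = (cls H Q a).card := by
    intro a
    have : cls H' Q (σ a) = (cls H Q a).map σ.toEmbedding := by
      ext b
      rw [mem_cls, Finset.mem_map]
      constructor
      · intro h1
        refine ⟨σ⁻¹ b, ?_, by simp⟩
        rw [mem_cls, ← hrel]
        simpa using h1
      · rintro ⟨c, hc, rfl⟩
        rw [mem_cls] at hc
        exact (hrel a c).2 hc
    rw [this, Finset.card_map]
  ext b
  rw [Finset.mem_image]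
  constructor
  · intro hb
    refine ⟨σ⁻¹ b, ?_, by simp⟩
    rw [mem_supp] at hb ⊢
    have := hcard (σ⁻¹ b)
    have e0 : σ (σ⁻¹ b) = b := by simp
    rw [e0] at this
    rwa [← this]
  · rintro ⟨a, ha, rfl⟩
    rw [mem_supp] at ha ⊢
    rwa [hcard a]

theorem fsupp_ren {I : Interp P M V} {Q : Finset P} {σ : Perm P} (hσ : σ.support ⊆ Q)
    (C : Fml V) : fsupp I Q (ren I σ C) = (fsupp I Q C).image σ := by
  unfold fsupp
  apply supp_conj hσ
  · intro g hg
    rw [mem_stab] at hg ⊢
    rw [← ren_mul, mul_assoc, mul_assoc, inv_mul_cancel, mul_one, ren_mul]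
    exact Same.ren σ hg
  · intro g hg
    rw [mem_stab] at hg ⊢
    have := Same.ren (I := I) σ⁻¹ hg
    rw [← ren_mul, ← ren_mul, ren_inv_ren] at this
    rwa [mul_assoc]

/-- The local evaluation: `val I Q C true ν` says that some disjunct of `C` is true under some
extension of `ν`; `val I Q C false ν` says the same for the negation of `C`. -/
def val (I : Interp P M V) (Q : Finset P) : Fml V → Bool → Finset (P × M) → Prop
  | .var v, b, ν => ∃ ν', ν ⊆ ν' ∧ PM ν' ∧ I.touch v ⊆ dom ν' ∧ (I.tr v ν' ↔ b = true)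
  | .neg A, b, ν => val I Q A (!b) ν
  | .imp A B, true, ν => val I Q A false ν ∨ val I Q B true ν
  | .imp A B, false, ν => ∃ ν', ν ⊆ ν' ∧ PM ν' ∧ fsupp I Q (.imp A B) ⊆ dom ν' ∧
      ¬ (val I Q A false (res ν' (fsupp I Q (.imp A B))) ∨
        val I Q B true (res ν' (fsupp I Q (.imp A B))))

theorem val_imp_true {I : Interp P M V} {Q : Finset P} {A B : Fml V} {ν : Finset (P × M)} :
    val I Q (.imp A B) true ν ↔ (val I Q A false ν ∨ val I Q B true ν) := Iff.rfl

theorem val_imp_false {I : Interp P M V} {Q : Finset P} {A B : Fml V} {ν : Finset (P × M)} :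
    val I Q (.imp A B) false ν ↔ ∃ ν', ν ⊆ ν' ∧ PM ν' ∧ fsupp I Q (.imp A B) ⊆ dom ν' ∧
      ¬ val I Q (.imp A B) true (res ν' (fsupp I Q (.imp A B))) := Iff.rfl

theorem val_neg {I : Interp P M V} {Q : Finset P} {A : Fml V} {b : Bool} {ν : Finset (P × M)} :
    val I Q (.neg A) b ν ↔ val I Q A (!b) ν := by
  cases b <;> rfl

theorem val_anti {I : Interp P M V} {Q : Finset P} (C : Fml V) (b : Bool) {ν ν' : Finset (P × M)}
    (h : ν ⊆ ν') (hv : val I Q C b ν') : val I Q C b ν := by
  induction C generalizing b with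
  | var v =>
    obtain ⟨ν'', h1, h2⟩ := hv
    exact ⟨ν'', h.trans h1, h2⟩
  | neg A ih =>
    rw [val_neg] at hv ⊢
    exact ih _ hv
  | imp A B ih1 ih2 =>
    cases b with
    | true =>
      rw [val_imp_true] at hv ⊢
      exact hv.imp (ih1 _) (ih2 _)
    | false =>
      obtain ⟨ν'', h1, h2⟩ := hv
      exact ⟨ν'', h.trans h1, h2⟩

theorem val_false_congr {I : Interp P M V} {Q : Finset P} {A B C D : Fml V}
    (hs : Same (A.imp B) (C.imp D))
    (ht : ∀ ν, val I Q (A.imp B) true ν ↔ val I Q (C.imp D) true ν) (ν : Finset (P × M)) :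
    val I Q (A.imp B) false ν ↔ val I Q (C.imp D) false ν := by
  rw [val_imp_false, val_imp_false, fsupp_same hs]
  simp only [ht]

theorem val_same {I : Interp P M V} {Q : Finset P} {A B : Fml V} (h : Same A B) :
    ∀ (b : Bool) (ν : Finset (P × M)), val I Q A b ν ↔ val I Q B b ν := by
  induction h with
  | refl A => exact fun _ _ => Iff.rfl
  | symm _ ih => exact fun b ν => (ih b ν).symm
  | trans _ _ ih1 ih2 => exact fun b ν => (ih1 b ν).trans (ih2 b ν)
  | neg _ ih =>
    intro b ν
    rw [val_neg, val_neg]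
    exact ih _ ν
  | @imp A B C D h1 h2 ih1 ih2 =>
    have ht : ∀ ν, val I Q (A.imp C) true ν ↔ val I Q (B.imp D) true ν := by
      intro ν
      rw [val_imp_true, val_imp_true, ih1, ih2]
    intro b ν
    cases b with
    | true => exact ht ν
    | false => exact val_false_congr (Same.imp h1 h2) ht ν
  | dneg A =>
    intro b ν
    rw [val_neg, val_neg, Bool.not_not]
  | exch A B C =>
    have ht : ∀ ν, val I Q (A.imp (B.imp C)) true ν ↔ val I Q (B.imp (A.imp C)) true ν := by
      intro ν
      rw [val_imp_true, val_imp_true, val_imp_true, val_imp_true]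
      tauto
    intro b ν
    cases b with
    | true => exact ht ν
    | false => exact val_false_congr (Same.exch A B C) ht ν
  | contr A B =>
    have ht : ∀ ν, val I Q (A.imp (A.imp B)) true ν ↔ val I Q (A.imp B) true ν := by
      intro ν
      rw [val_imp_true, val_imp_true]
      tauto
    intro b ν
    cases b with
    | true => exact ht ν
    | false => exact val_false_congr (Same.contr A B) ht ν
  | cpos A B =>
    have ht : ∀ ν, val I Q (A.imp B) true ν ↔ val I Q (B.neg.imp A.neg) true ν := by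
      intro ν
      rw [val_imp_true, val_imp_true, val_neg, val_neg]
      simp only [Bool.not_false, Bool.not_true]
      tauto
    intro b ν
    cases b with
    | true => exact ht ν
    | false => exact val_false_congr (Same.cpos A B) ht ν

theorem exists_mv {g : Perm P} {p : Finset (P × M) → Prop} :
    (∃ ν, p ν) ↔ ∃ ν, p (mv g ν) := by
  constructor
  · rintro ⟨ν, h⟩
    exact ⟨mv g⁻¹ ν, by rwa [mv_mv_inv]⟩
  · rintro ⟨ν, h⟩; exact ⟨_, h⟩

theorem image_subset_image_perm {g : Perm P} {S T : Finset P} :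
    S.image g ⊆ T.image g ↔ S ⊆ T := by
  constructor
  · intro h x hx
    have := h (Finset.mem_image_of_mem g hx)
    obtain ⟨y, hy, hxy⟩ := Finset.mem_image.1 this
    rwa [← g.injective hxy]
  · exact fun h => Finset.image_subset_image h

theorem val_act {I : Interp P M V} {Q : Finset P} {σ : Perm P} (hσ : σ.support ⊆ Q)
    (C : Fml V) : ∀ (b : Bool) (ν : Finset (P × M)),
      val I Q (ren I σ C) b (mv σ ν) ↔ val I Q C b ν := by
  induction C with
  | var v =>
    intro b ν
    show (∃ ν', mv σ ν ⊆ ν' ∧ PM ν' ∧ I.touch (I.act σ v) ⊆ dom ν' ∧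
      (I.tr (I.act σ v) ν' ↔ b = true)) ↔ _
    rw [exists_mv (g := σ)]
    simp only [mv_subset_mv, PM_mv_iff, dom_mv, I.touch_act, image_subset_image_perm, I.tr_act]
    rfl
  | neg A ih =>
    intro b ν
    show val I Q (Fml.neg (ren I σ A)) b (mv σ ν) ↔ _
    rw [val_neg, val_neg, ih]
  | imp A B ih1 ih2 =>
    intro b ν
    cases b with
    | true =>
      show val I Q (Fml.imp (ren I σ A) (ren I σ B)) true (mv σ ν) ↔ _
      rw [val_imp_true, val_imp_true, ih1, ih2]
    | false =>
      have hf := fsupp_ren (I := I) hσ (Fml.imp A B)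
      have hf' : fsupp I Q (Fml.imp (ren I σ A) (ren I σ B)) = (fsupp I Q (A.imp B)).image σ := hf
      show val I Q (Fml.imp (ren I σ A) (ren I σ B)) false (mv σ ν) ↔ _
      rw [val_imp_false, val_imp_false, exists_mv (g := σ)]
      simp only [mv_subset_mv, PM_mv_iff, dom_mv, hf', image_subset_image_perm, res_mv,
        val_imp_true, ih1, ih2]

/-- `Block C b B`: `B` is an implication which occurs in `C` (evaluated with sign `b`) with sign
false. -/
def Block : Fml V → Bool → Fml V → Prop
  | .var _, _, _ => False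
  | .neg A, b, B => Block A (!b) B
  | .imp A C, b, B => Block A false B ∨ Block C true B ∨ (b = false ∧ B = .imp A C)

/-- all blocks have small support -/
def Small (I : Interp P M V) (Q : Finset P) (s : ℕ) (C : Fml V) (b : Bool) : Prop :=
  ∀ B, Block C b B → (fsupp I Q B ∩ Q).card ≤ s

theorem Small.neg {I : Interp P M V} {Q : Finset P} {s : ℕ} {A : Fml V} {b : Bool}
    (h : Small I Q s (.neg A) b) : Small I Q s A (!b) := fun B hB => h B hB

theorem Small.imp_left {I : Interp P M V} {Q : Finset P} {s : ℕ} {A C : Fml V} {b : Bool}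
    (h : Small I Q s (.imp A C) b) : Small I Q s A false := fun B hB => h B (Or.inl hB)

theorem Small.imp_right {I : Interp P M V} {Q : Finset P} {s : ℕ} {A C : Fml V} {b : Bool}
    (h : Small I Q s (.imp A C) b) : Small I Q s C true := fun B hB => h B (Or.inr (Or.inl hB))

theorem Small.imp_self {I : Interp P M V} {Q : Finset P} {s : ℕ} {A C : Fml V}
    (h : Small I Q s (.imp A C) false) : (fsupp I Q (.imp A C) ∩ Q).card ≤ s :=
  h _ (Or.inr (Or.inr ⟨rfl, rfl⟩))

theorem Small.imp_true {I : Interp P M V} {Q : Finset P} {s : ℕ} {A C : Fml V}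
    (h : Small I Q s (.imp A C) false) : Small I Q s (.imp A C) true := by
  intro B hB
  apply h
  rcases hB with h1 | h1 | h1
  · exact Or.inl h1
  · exact Or.inr (Or.inl h1)
  · exact absurd h1.1 (by simp)

theorem compl_subset_fsupp {I : Interp P M V} {Q : Finset P} (hQ : 2 ≤ Q.card) (C : Fml V) :
    ∀ a, a ∉ Q → a ∈ fsupp I Q C := fun _ ha => notMem_Q_mem_supp hQ ha

theorem sdiff_card_le {Q D S : Finset P} {s : ℕ} (hD : ∀ a, a ∉ Q → a ∈ D)
    (hS : (S ∩ Q).card ≤ s) : ((D ∪ S) \ D).card ≤ s := by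
  refine (Finset.card_le_card ?_).trans hS
  intro x hx
  simp only [Finset.mem_sdiff, Finset.mem_union, Finset.mem_inter] at hx ⊢
  refine ⟨hx.1.resolve_left hx.2, ?_⟩
  by_contra h
  exact hx.2 (hD x h)

/-- a true formula is robustly true after a small extension -/
theorem witness {I : Interp P M V} {Q : Finset P} {s : ℕ}
    (hT : ∀ v, (I.touch v).card ≤ s) (C : Fml V) :
    ∀ (b : Bool), Small I Q s C b → ∀ ν : Finset (P × M), PM ν → (∀ a, a ∉ Q → a ∈ dom ν) →
      val I Q C b ν → ∃ ν₁, ν ⊆ ν₁ ∧ PM ν₁ ∧ (dom ν₁ \ dom ν).card ≤ s ∧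
        ∀ ν₂, ν₁ ⊆ ν₂ → PM ν₂ → val I Q C b ν₂ := by
  induction C with
  | var v =>
    rintro b _ ν hν hQ ⟨ν', h1, h2, h3, h4⟩
    have hd : dom (res ν' (dom ν ∪ I.touch v)) = dom ν ∪ I.touch v :=
      dom_res_of_subset (Finset.union_subset (dom_mono h1) h3)
    refine ⟨res ν' (dom ν ∪ I.touch v), ?_, h2.mono (res_subset _ _), ?_, ?_⟩
    · intro p hp
      rw [mem_res]
      exact ⟨h1 hp, Finset.mem_union_left _ (mem_dom.2 ⟨p.2, hp⟩)⟩
    · rw [hd]
      exact sdiff_card_le hQ ((Finset.card_le_card Finset.inter_subset_left).trans (hT v))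
    · intro ν₂ h5 h6
      have h7 : I.touch v ⊆ dom (res ν' (dom ν ∪ I.touch v)) := by
        rw [hd]; exact Finset.subset_union_right
      refine ⟨ν₂, Finset.Subset.refl _, h6, h7.trans (dom_mono h5), ?_⟩
      rw [← I.tr_mono v _ _ h6 h5 h7, I.tr_mono v _ _ h2 (res_subset _ _) h7]
      exact h4
  | neg A ih =>
    intro b hs ν hν hQ hv
    rw [val_neg] at hv
    obtain ⟨ν₁, h1, h2, h3, h4⟩ := ih _ hs.neg ν hν hQ hv
    exact ⟨ν₁, h1, h2, h3, fun ν₂ h5 h6 => by rw [val_neg]; exact h4 ν₂ h5 h6⟩
  | imp A B ih1 ih2 =>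
    intro b hs ν hν hQ hv
    cases b with
    | true =>
      rw [val_imp_true] at hv
      rcases hv with hv | hv
      · obtain ⟨ν₁, h1, h2, h3, h4⟩ := ih1 _ hs.imp_left ν hν hQ hv
        exact ⟨ν₁, h1, h2, h3, fun ν₂ h5 h6 => Or.inl (h4 ν₂ h5 h6)⟩
      · obtain ⟨ν₁, h1, h2, h3, h4⟩ := ih2 _ hs.imp_right ν hν hQ hv
        exact ⟨ν₁, h1, h2, h3, fun ν₂ h5 h6 => Or.inr (h4 ν₂ h5 h6)⟩
    | false =>
      rw [val_imp_false] at hv
      obtain ⟨ν', h1, h2, h3, h4⟩ := hv
      set S := fsupp I Q (Fml.imp A B) with hSdef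
      have hd : dom (res ν' (dom ν ∪ S)) = dom ν ∪ S :=
        dom_res_of_subset (Finset.union_subset (dom_mono h1) h3)
      refine ⟨res ν' (dom ν ∪ S), ?_, h2.mono (res_subset _ _), ?_, ?_⟩
      · intro p hp
        rw [mem_res]
        exact ⟨h1 hp, Finset.mem_union_left _ (mem_dom.2 ⟨p.2, hp⟩)⟩
      · rw [hd]
        exact sdiff_card_le hQ hs.imp_self
      · intro ν₂ h5 h6
        have h7 : S ⊆ dom (res ν' (dom ν ∪ S)) := by
          rw [hd]; exact Finset.subset_union_right
        rw [val_imp_false]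
        refine ⟨ν₂, Finset.Subset.refl _, h6, h7.trans (dom_mono h5), ?_⟩
        have e1 : res (res ν' (dom ν ∪ S)) S = res ν₂ S := res_eq_of_subset h5 h6 h7
        have e2 : res (res ν' (dom ν ∪ S)) S = res ν' S := res_eq_of_subset (res_subset _ _) h2 h7
        rw [← hSdef, ← e1, e2]
        exact h4

/-- the key lemma: the value depends only on the restriction to the support -/
theorem val_res {I : Interp P M V} {Q : Finset P} {s : ℕ} (hQ : 2 ≤ Q.card)
    (hT : ∀ v, (I.touch v).card ≤ s) {C : Fml V} {b : Bool} (hs : Small I Q s C b)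
    {ν : Finset (P × M)} (hν : PM ν) (hd : fsupp I Q C ⊆ dom ν)
    (hroom : (dom ν).card + 2 * s + 2 ≤ Fintype.card P) :
    val I Q C b (res ν (fsupp I Q C)) ↔ val I Q C b ν := by
  constructor
  swap
  · exact val_anti C b (res_subset _ _)
  intro hv
  set S := fsupp I Q C with hS
  have hd0 : dom (res ν S) = S := dom_res_of_subset hd
  obtain ⟨ν₁, h1, h2, h3, h4⟩ := witness hT C b hs (res ν S) (hν.mono (res_subset _ _))
    (by rw [hd0]; exact compl_subset_fsupp hQ C) hv
  rw [hd0] at h3
  obtain ⟨σ, hσ1, hσ2, hσ3⟩ := exists_perm hν h2 hd h1 h3 hroom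
  have hσQ : σ.support ⊆ Q := by
    intro a ha
    by_contra hc
    exact (mem_support.1 ha) (hσ2 a (compl_subset_fsupp hQ C a hc))
  have hmem : σ ∈ stab I C := by
    apply even_mem hQ hσ1
    rw [Finset.disjoint_left]
    intro a ha haS
    exact (mem_support.1 ha) (hσ2 a haS)
  rw [mem_stab] at hmem
  have h5 : val I Q C b (mv σ⁻¹ (ν ∪ mv σ ν₁)) := by
    apply h4
    · have := mv_mono σ⁻¹ (Finset.subset_union_right (s₁ := ν) (s₂ := mv σ ν₁))
      rwa [mv_inv_mv] at this
    · exact hσ3.mv _
  rw [← val_act hσQ, mv_mv_inv, val_same hmem] at h5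
  exact val_anti C b Finset.subset_union_left h5

end Pool.Agent.H66.SF
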