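import Pool.Agent.H66.SF.PhpDefs

/-!
Propositional translation of first-order sentences over a universe of size `n`.
-/

namespace Pool.Agent.H66.SF



/-- Propositional variables of the translation of first-order sentences: atomic statements
`R(a₁, …, a_k)` with `a_i ∈ P`, and one auxiliary variable `none`. -/
abbrev Atom (L : FirstOrder.Language.{0, 0}) (P : Type) : Type := Option (Σ k : ℕ, L.Relations k × (Fin k → P))

/-- Renaming of atoms by a map of the universe. -/
def Atom.map {L : FirstOrder.Language.{0, 0}} {P : Type} (f : P → P) : Atom L P → Atom L P :=
  Option.map (fun x => ⟨x.1, x.2.1, f ∘ x.2.2⟩)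

/-- Value of a term of a relational language (a variable) under a valuation. -/
def tval {L : FirstOrder.Language.{0, 0}} [L.IsRelational] {P : Type} {k : ℕ} (v : Fin k → P) :
    L.Term (Empty ⊕ Fin k) → P
  | .var (.inl e) => e.elim
  | .var (.inr i) => v i
  | .func f _ => isEmptyElim f

/-- A propositional tautology. -/
def verum {L : FirstOrder.Language.{0, 0}} {P : Type} : Fml (Atom L P) := .imp (.var none) (.var none)

/-- The propositional translation of a first-order formula over the universe `Fin n`: equality
becomes a truth constant, quantifiers become conjunctions of size `n`. -/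
def translate {L : FirstOrder.Language.{0, 0}} [L.IsRelational] (n : ℕ) :
    ∀ {k : ℕ}, L.BoundedFormula Empty k → (Fin k → Fin n) → Fml (Atom L (Fin n))
  | _, .falsum, _ => .neg verum
  | _, .equal t₁ t₂, v => if tval v t₁ = tval v t₂ then verum else .neg verum
  | _, .rel R ts, v => .var (some ⟨_, R, fun i => tval v (ts i)⟩)
  | _, .imp φ ψ, v => .imp (translate n φ v) (translate n ψ v)
  | _, .all φ, v => .neg (chain ((List.finRange n).map fun a => translate n φ (Fin.snoc v a))
      (.neg verum))

/-- The propositional formula expressing that the sentence `ψ` has no model with universe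
`Fin n`. -/
def noModel {L : FirstOrder.Language.{0, 0}} [L.IsRelational] (ψ : L.Sentence) (n : ℕ) :
    Fml (Atom L (Fin n)) := .neg (translate n ψ default)

/-- A list of formulas over the atoms of `Fin n` is symmetric under `Q` if it is closed, up to
rearrangement, under the permutations of the universe which fix all points outside `Q`. -/
def FoSymmetric {L : FirstOrder.Language.{0, 0}} {n : ℕ} (Q : Finset (Fin n))
    (D : List (Fml (Atom L (Fin n)))) : Prop :=
  ∀ σ : Equiv.Perm (Fin n), (∀ i, i ∉ Q → σ i = i) → ∀ A ∈ D, ∃ B ∈ D,
    Fml.Same (A.rename (Atom.map σ)) B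

end Pool.Agent.H66.SF
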