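import Pool.Agent.H66.SF.Php
import Pool.Agent.H66.SF.FoDefs

/-!
First-order sentences with an infinite model have no short symmetric Frege proofs of
non-existence of models of size `n`.
-/

set_option linter.unusedSectionVars false

namespace Pool.Agent.H66.SF
open Equiv Equiv.Perm Fml

section general

variable {P M V : Type} [Fintype P] [DecidableEq P] [DecidableEq M]

theorem Small.chain_mem {I : Interp P M V} {Q : Finset P} {s : ℕ} {l : List (Fml V)} {z : Fml V}
    (h : Small I Q s (chain l z) true) {A : Fml V} (hA : A ∈ l) : Small I Q s A false := by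
  induction l with
  | nil => simp at hA
  | cons B l ih =>
    have h' : Small I Q s (B.imp (chain l z)) true := h
    rw [List.mem_cons] at hA
    rcases hA with rfl | hA
    · exact h'.imp_left
    · exact ih h'.imp_right hA

/-- if the truth value of an implication is constant on small extensions then the value with sign
false is its negation -/
theorem val_false_of_const {I : Interp P M V} {Q : Finset P} {s R : ℕ} (hQ : 2 ≤ Q.card)
    (hM : ∀ F : Finset M, F.card < R → ∃ x, x ∉ F) (hR : Fintype.card P ≤ R + 1)
    (hT : ∀ v, (I.touch v).card ≤ s) {X : Fml V} (hX : ∃ A B, X = .imp A B)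
    (hs : Small I Q s X false) {ν : Finset (P × M)} (hν : PM ν)
    (hroom : (dom ν ∩ Q).card + 3 * s + 2 ≤ Q.card) (T : Prop)
    (hc : ∀ ν', ν ⊆ ν' → PM ν' → (dom ν' ∩ Q).card ≤ (dom ν ∩ Q).card + s →
      (val I Q X true ν' ↔ T)) : val I Q X false ν ↔ ¬ T := by
  obtain ⟨A, B, rfl⟩ := hX
  have hQP : Q.card ≤ Fintype.card P := Finset.card_le_univ Q
  have hS := hs.imp_self
  set S := fsupp I Q (A.imp B) with hSdef
  have hun : ((dom ν ∪ S) ∩ Q).card ≤ (dom ν ∩ Q).card + s := by
    rw [Finset.union_inter_distrib_right]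
    exact (Finset.card_union_le _ _).trans (by omega)
  have hun' := dom_card_le (Q := Q) (D := dom ν ∪ S)
  have key : ∀ ν', ν ⊆ ν' → PM ν' → dom ν' = dom ν ∪ S →
      (val I Q (A.imp B) true (res ν' S) ↔ T) := by
    intro ν' h1 h2 h3
    rw [hSdef, val_res hQ hT hs.imp_true h2 (by rw [h3]; exact Finset.subset_union_right)
      (by rw [h3]; omega)]
    exact hc ν' h1 h2 (by rw [h3]; exact hun)
  rw [val_imp_false]
  constructor
  · rintro ⟨ν', h1, h2, h3, h4⟩ hT'
    apply h4
    have hd : dom (res ν' (dom ν ∪ S)) = dom ν ∪ S :=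
      dom_res_of_subset (Finset.union_subset (dom_mono h1) h3)
    have hsub : ν ⊆ res ν' (dom ν ∪ S) := by
      intro p hp
      rw [mem_res]
      exact ⟨h1 hp, Finset.mem_union_left _ (mem_dom.2 ⟨p.2, hp⟩)⟩
    have := (key _ hsub (h2.mono (res_subset _ _)) hd).2 hT'
    rwa [res_eq_of_subset (res_subset _ _) h2 (by rw [hd]; exact Finset.subset_union_right)] at this
  · intro hT'
    obtain ⟨ν', h1, h2, h3⟩ := exists_extend hM hν S (by omega)
    refine ⟨ν', h1, h2, by rw [h3]; exact Finset.subset_union_right, ?_⟩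
    rw [← hSdef, key ν' h1 h2 h3]
    exact hT'

end general

section fo

variable {L : FirstOrder.Language.{0, 0}} [L.IsRelational] {n : ℕ}

open Classical in
/-- interpretation of atoms in an infinite structure -/
noncomputable def foInterp (L : FirstOrder.Language.{0, 0}) (n : ℕ) (M : Type) [L.Structure M] :
    Interp (Fin n) M (Atom L (Fin n)) where
  act := fun g => Atom.map g
  act_one := by
    intro v
    rcases v with _ | ⟨k, R, a⟩ <;> rfl
  act_mul := by
    intro g h v
    rcases v with _ | ⟨k, R, a⟩ <;> rfl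
  touch := fun v => match v with
    | none => ∅
    | some ⟨_, _, a⟩ => Finset.univ.image a
  tr := fun v ν => match v with
    | none => False
    | some ⟨k, R, a⟩ => ∃ b : Fin k → M, (∀ i, (a i, b i) ∈ ν) ∧
        FirstOrder.Language.Structure.RelMap R b
  touch_act := by
    intro g v
    rcases v with _ | ⟨k, R, a⟩
    · rfl
    · show Finset.univ.image (g ∘ a) = (Finset.univ.image a).image g
      rw [Finset.image_image]
  tr_act := by
    intro g v ν
    rcases v with _ | ⟨k, R, a⟩
    · rfl
    · show (∃ b : Fin k → M, (∀ i, ((g ∘ a) i, b i) ∈ mv g ν) ∧ _) ↔ _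
      simp only [mem_mv, Function.comp]
      simp
  tr_mono := by
    intro v ν ν' h h1 h2
    rcases v with _ | ⟨k, R, a⟩
    · rfl
    · constructor
      · rintro ⟨b, hb, hR⟩
        exact ⟨b, fun i => h1 (hb i), hR⟩
      · rintro ⟨b, hb, hR⟩
        refine ⟨b, fun i => ?_, hR⟩
        have h3 : a i ∈ dom ν := h2 (Finset.mem_image_of_mem a (Finset.mem_univ i))
        obtain ⟨c, hc⟩ := mem_dom.1 h3
        have : b i = c := (h _ (hb i) _ (h1 hc)).1 rfl
        rwa [this]

/-- quantifier and implication depth -/
def fdepth : ∀ {k : ℕ}, L.BoundedFormula Empty k → ℕ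
  | _, .falsum => 0
  | _, .equal _ _ => 0
  | _, .rel _ _ => 0
  | _, .imp φ ψ => max (fdepth φ) (fdepth ψ) + 1
  | _, .all φ => fdepth φ + 2

variable {M : Type} [L.Structure M] {Q : Finset (Fin n)}

theorem val_verum {b : Bool} {ν : Finset (Fin n × M)} [DecidableEq M] (hν : PM ν)
    (I : Interp (Fin n) M (Atom L (Fin n))) (hI : I.touch none = ∅)
    (hI' : ∀ ν, ¬ I.tr none ν) :
    val I Q verum b ν ↔ b = true := by
  have h1 : ∀ ν : Finset (Fin n × M), PM ν → val I Q (verum : Fml (Atom L (Fin n))) true ν := by
    intro ν hν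
    unfold verum
    rw [val_imp_true]
    left
    exact ⟨ν, Finset.Subset.refl _, hν, by rw [hI]; exact Finset.empty_subset _, by simp [hI']⟩
  cases b with
  | true => simpa using h1 ν hν
  | false =>
    simp only [Bool.false_eq_true, iff_false]
    unfold verum
    rw [val_imp_false]
    rintro ⟨ν', h2, h3, h4, h5⟩
    exact h5 (h1 _ (h3.mono (res_subset _ _)))

theorem tval_mem {k : ℕ} {v : Fin k → Fin n} {m : Fin k → M} {ν : Finset (Fin n × M)}
    (hm : ∀ i, (v i, m i) ∈ ν) (t : L.Term (Empty ⊕ Fin k)) :
    (tval v t, t.realize (Sum.elim default m)) ∈ ν := by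
  match t with
  | .var (.inl e) => exact e.elim
  | .var (.inr i) => exact hm i
  | .func f _ => exact isEmptyElim f

/-- the local value of the translation is the truth value in the infinite structure -/
theorem val_translate {s R : ℕ} (hQ : 2 ≤ Q.card) [Infinite M]
    (hR : n ≤ R + 1) [DecidableEq M] (I : Interp (Fin n) M (Atom L (Fin n)))
    (hIt : I.touch none = ∅) (hIn : ∀ ν, ¬ I.tr none ν)
    (hIt' : ∀ (k : ℕ) (R : L.Relations k) (a : Fin k → Fin n) (i : Fin k),
      a i ∈ I.touch (some ⟨k, R, a⟩))
    (hIt'' : ∀ (k : ℕ) (R : L.Relations k) (a : Fin k → Fin n) (x : Fin n),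
      x ∈ I.touch (some ⟨k, R, a⟩) → ∃ i, a i = x)
    (hIr : ∀ (k : ℕ) (R : L.Relations k) (a : Fin k → Fin n) (ν : Finset (Fin n × M)),
      I.tr (some ⟨k, R, a⟩) ν ↔ ∃ b : Fin k → M, (∀ i, (a i, b i) ∈ ν) ∧
        FirstOrder.Language.Structure.RelMap R b)
    (hT : ∀ v, (I.touch v).card ≤ s) {k : ℕ} (φ : L.BoundedFormula Empty k) :
    ∀ (b : Bool) (v : Fin k → Fin n) (m : Fin k → M) (ν : Finset (Fin n × M)), PM ν →
      (∀ a, a ∉ Q → a ∈ dom ν) → (∀ i, (v i, m i) ∈ ν) → Small I Q s (translate n φ v) b →
      (dom ν ∩ Q).card + fdepth φ * (s + 1) + 3 * s + 2 ≤ Q.card →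
      (val I Q (translate n φ v) b ν ↔ (φ.Realize default m ↔ b = true)) := by
  have hM : ∀ F : Finset M, F.card < R → ∃ x, x ∉ F := fun F _ => Infinite.exists_notMem_finset F
  have hRc : Fintype.card (Fin n) ≤ R + 1 := by simpa using hR
  induction φ with
  | falsum =>
    intro b v m ν hν hνQ hm hs hroom
    show val I Q (Fml.neg verum) b ν ↔ (False ↔ b = true)
    rw [val_neg, val_verum hν I hIt hIn]
    cases b <;> simp
  | equal t₁ t₂ =>
    intro b v m ν hν hνQ hm hs hroom
    show val I Q (if tval v t₁ = tval v t₂ then verum else .neg verum) b ν ↔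
      ((t₁.realize (Sum.elim default m) = t₂.realize (Sum.elim default m)) ↔ b = true)
    have h1 := hν _ (tval_mem hm t₁) _ (tval_mem hm t₂)
    simp only at h1
    by_cases h : tval v t₁ = tval v t₂
    · rw [if_pos h, val_verum hν I hIt hIn]
      have := h1.1 h
      simp [this]
    · rw [if_neg h, val_neg, val_verum hν I hIt hIn]
      have : ¬ (t₁.realize (Sum.elim default m) = t₂.realize (Sum.elim default m)) :=
        fun e => h (h1.2 e)
      cases b <;> simp [this]
  | @rel k l R ts =>
    intro b v m ν hν hνQ hm hs hroom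
    show (∃ ν', ν ⊆ ν' ∧ PM ν' ∧ I.touch (some ⟨l, R, fun i => tval v (ts i)⟩) ⊆ dom ν' ∧
      (I.tr (some ⟨l, R, fun i => tval v (ts i)⟩) ν' ↔ b = true)) ↔
      (FirstOrder.Language.Structure.RelMap R
        (fun i => (ts i).realize (Sum.elim default m)) ↔ b = true)
    have hcov : I.touch (some ⟨l, R, fun i => tval v (ts i)⟩) ⊆ dom ν := by
      intro x hx
      obtain ⟨i, rfl⟩ := hIt'' _ _ _ _ hx
      exact mem_dom.2 ⟨_, tval_mem hm (ts i)⟩
    have htr : ∀ ν', ν ⊆ ν' → PM ν' → (I.tr (some ⟨l, R, fun i => tval v (ts i)⟩) ν' ↔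
        FirstOrder.Language.Structure.RelMap R
          (fun i => (ts i).realize (Sum.elim default m))) := by
      intro ν' h1 h2
      rw [hIr]
      constructor
      · rintro ⟨c, hc, hR⟩
        have : c = fun i => (ts i).realize (Sum.elim default m) := by
          funext i
          exact (h2 _ (hc i) _ (h1 (tval_mem hm (ts i)))).1 rfl
        rwa [this] at hR
      · intro hR
        exact ⟨_, fun i => h1 (tval_mem hm (ts i)), hR⟩
    constructor
    · rintro ⟨ν', h1, h2, h3, h4⟩
      rwa [htr ν' h1 h2] at h4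
    · intro h
      exact ⟨ν, Finset.Subset.refl _, hν, hcov, by rwa [htr ν (Finset.Subset.refl _) hν]⟩
  | imp φ ψ ih1 ih2 =>
    intro b v m ν hν hνQ hm hs hroom
    have hd : fdepth (φ.imp ψ) = max (fdepth φ) (fdepth ψ) + 1 := rfl
    rw [hd] at hroom
    have hd1 : fdepth φ * (s + 1) ≤ max (fdepth φ) (fdepth ψ) * (s + 1) :=
      Nat.mul_le_mul_right _ (le_max_left _ _)
    have hd2 : fdepth ψ * (s + 1) ≤ max (fdepth φ) (fdepth ψ) * (s + 1) :=
      Nat.mul_le_mul_right _ (le_max_right _ _)
    have hexp : (max (fdepth φ) (fdepth ψ) + 1) * (s + 1) =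
        max (fdepth φ) (fdepth ψ) * (s + 1) + (s + 1) := by ring
    rw [hexp] at hroom
    have ht : ∀ ν', ν ⊆ ν' → PM ν' → (dom ν' ∩ Q).card ≤ (dom ν ∩ Q).card + s →
        (val I Q (translate n (φ.imp ψ) v) true ν' ↔ (φ.imp ψ).Realize default m) := by
      intro ν' h1 h2 h3
      show val I Q (Fml.imp (translate n φ v) (translate n ψ v)) true ν' ↔ _
      rw [val_imp_true, FirstOrder.Language.BoundedFormula.realize_imp]
      rw [ih1 false v m ν' h2 (fun a ha => dom_mono h1 (hνQ a ha)) (fun i => h1 (hm i))
        hs.imp_left (by omega),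
        ih2 true v m ν' h2 (fun a ha => dom_mono h1 (hνQ a ha)) (fun i => h1 (hm i))
        hs.imp_right (by omega)]
      simp only [Bool.false_eq_true, iff_false, iff_true]
      tauto
    cases b with
    | true =>
      rw [ht ν (Finset.Subset.refl _) hν (by omega)]
      simp
    | false =>
      have h : val I Q (translate n (φ.imp ψ) v) false ν ↔ ¬ (φ.imp ψ).Realize default m :=
        val_false_of_const hQ hM hRc hT ⟨_, _, rfl⟩ hs hν (by omega) _ ht
      rw [h]
      simp
  | @all k φ ih =>
    intro b v m ν hν hνQ hm hs hroom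
    have hd : fdepth φ.all = fdepth φ + 2 := rfl
    rw [hd] at hroom
    have hexp : (fdepth φ + 2) * (s + 1) = fdepth φ * (s + 1) + 2 * (s + 1) := by ring
    rw [hexp] at hroom
    set l : List (Fml (Atom L (Fin n))) :=
      (List.finRange n).map fun a => translate n φ (Fin.snoc v a) with hl
    have hX : translate n φ.all v = Fml.neg (chain l (Fml.neg verum)) := rfl
    rw [hX] at hs ⊢
    rw [val_neg]
    have hmem : ∀ a : Fin n, translate n φ (Fin.snoc v a) ∈ l := by
      intro a; rw [hl]; exact List.mem_map.2 ⟨a, List.mem_finRange a, rfl⟩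
    -- value with sign true of the chain
    have ht : Small I Q s (chain l (Fml.neg verum)) true → ∀ ν', ν ⊆ ν' → PM ν' →
        (dom ν' ∩ Q).card ≤ (dom ν ∩ Q).card + s →
        (val I Q (chain l (Fml.neg verum)) true ν' ↔ ¬ φ.all.Realize default m) := by
      intro hsm ν' h1 h2 h3
      rw [val_chain, val_neg, val_verum h2 I hIt hIn]
      simp only [Bool.not_true, Bool.false_eq_true, or_false]
      rw [FirstOrder.Language.BoundedFormula.realize_all]
      have hsnoc : ∀ (ν'' : Finset (Fin n × M)) (a : Fin n) (c : M), ν' ⊆ ν'' → (a, c) ∈ ν'' →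
          ∀ i, ((Fin.snoc v a : Fin (k + 1) → Fin n) i, (Fin.snoc m c : Fin (k + 1) → M) i) ∈ ν'' := by
        intro ν'' a c h4 h5 i
        refine Fin.lastCases ?_ (fun j => ?_) i
        · rw [Fin.snoc_last, Fin.snoc_last]; exact h5
        · rw [Fin.snoc_castSucc, Fin.snoc_castSucc]; exact h4 (h1 (hm j))
      constructor
      · rintro ⟨A, hA, hv⟩ hall
        rw [hl, List.mem_map] at hA
        obtain ⟨a, _, rfl⟩ := hA
        have hsA := hsm.chain_mem (hmem a)
        have hQ' : ∀ x, x ∉ Q → x ∈ dom ν' := fun x hx => dom_mono h1 (hνQ x hx)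
        obtain ⟨ν₁, h4, h5, h6, h7⟩ := witness hT _ false hsA ν' h2 hQ' hv
        have hc1 : (dom ν₁ ∩ Q).card ≤ (dom ν' ∩ Q).card + s := by
          have e1 : dom ν₁ ∩ Q ⊆ (dom ν' ∩ Q) ∪ (dom ν₁ \ dom ν') := by
            intro x hx
            simp only [Finset.mem_union, Finset.mem_inter, Finset.mem_sdiff] at hx ⊢
            by_cases h : x ∈ dom ν'
            · exact Or.inl ⟨h, hx.2⟩
            · exact Or.inr ⟨hx.1, h⟩
          have e2 := Finset.card_le_card e1
          have e3 := Finset.card_union_le (dom ν' ∩ Q) (dom ν₁ \ dom ν')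
          omega
        obtain ⟨ν₂, h8, h9, h10⟩ := exists_extend (R := n) (fun F _ =>
          Infinite.exists_notMem_finset F) h5 {a} (by simpa using Finset.card_le_univ (dom ν₁ ∪ {a}))
        have hc2 : (dom ν₂ ∩ Q).card ≤ (dom ν₁ ∩ Q).card + 1 := by
          rw [h10, Finset.union_inter_distrib_right]
          refine (Finset.card_union_le _ _).trans ?_
          have : ({a} ∩ Q : Finset (Fin n)).card ≤ 1 :=
            (Finset.card_le_card Finset.inter_subset_left).trans (by simp)
          omega
        have ha : a ∈ dom ν₂ := by rw [h10]; simp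
        obtain ⟨c, hc⟩ := mem_dom.1 ha
        have h11 := h7 ν₂ h8 h9
        rw [ih false (Fin.snoc v a) (Fin.snoc m c) ν₂ h9
          (fun x hx => dom_mono (h4.trans h8) (hQ' x hx))
          (hsnoc ν₂ a c (h4.trans h8) hc) hsA (by omega)] at h11
        simp only [Bool.false_eq_true, iff_false] at h11
        exact h11 (hall c)
      · intro hno
        push Not at hno
        obtain ⟨c, hc⟩ := hno
        by_cases hex : ∃ a, (a, c) ∈ ν'
        · obtain ⟨a, ha⟩ := hex
          refine ⟨_, hmem a, ?_⟩
          rw [ih false (Fin.snoc v a) (Fin.snoc m c) ν' h2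
            (fun x hx => dom_mono h1 (hνQ x hx))
            (hsnoc ν' a c (Finset.Subset.refl _) ha) (hsm.chain_mem (hmem a)) (by omega)]
          simpa using hc
        · push Not at hex
          obtain ⟨a, haQ, ha⟩ : ∃ a ∈ Q, a ∉ dom ν' := by
            by_contra hcon
            push Not at hcon
            have : Q ⊆ dom ν' ∩ Q := fun x hx => Finset.mem_inter.2 ⟨hcon x hx, hx⟩
            have := Finset.card_le_card this
            omega
          have hP : PM (insert (a, c) ν') := by
            intro p hp q hq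
            rw [Finset.mem_insert] at hp hq
            rcases hp with rfl | hp <;> rcases hq with rfl | hq
            · simp
            · constructor
              · intro e
                exact absurd (mem_dom.2 ⟨q.2, by rw [show a = q.1 from e]; exact hq⟩) ha
              · intro e
                exact absurd (by rw [show c = q.2 from e]; exact hq) (hex q.1)
            · constructor
              · intro e
                exact absurd (mem_dom.2 ⟨p.2, by rw [show a = p.1 from e.symm]; exact hp⟩) ha
              · intro e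
                exact absurd (by rw [show c = p.2 from e.symm]; exact hp) (hex p.1)
            · exact h2 p hp q hq
          have hdom : dom (insert (a, c) ν') = insert a (dom ν') := by
            simp [dom, Finset.image_insert]
          refine ⟨_, hmem a, val_anti _ _ (Finset.subset_insert (a, c) ν') ?_⟩
          rw [ih false (Fin.snoc v a) (Fin.snoc m c) (insert (a, c) ν') hP
            (fun x hx => dom_mono (h1.trans (Finset.subset_insert _ _)) (hνQ x hx))
            (hsnoc _ a c (Finset.subset_insert _ _) (Finset.mem_insert_self _ _))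
            (hsm.chain_mem (hmem a)) (by
              have : (dom (insert (a, c) ν') ∩ Q).card ≤ (dom ν' ∩ Q).card + 1 := by
                rw [hdom, Finset.insert_inter_of_mem haQ]
                exact Finset.card_insert_le _ _
              omega)]
          simpa using hc
    cases b with
    | true =>
      have hs' : Small I Q s (chain l (Fml.neg verum)) false := hs.neg
      have himp : ∃ A B, chain l (Fml.neg verum) = Fml.imp A B := by
        obtain ⟨a, ha⟩ : Q.Nonempty := Finset.card_pos.1 (by omega)
        cases hcase : l with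
        | nil => have := hmem a; rw [hcase] at this; simp at this
        | cons A l' => exact ⟨A, chain l' (Fml.neg verum), rfl⟩
      have hst : Small I Q s (chain l (Fml.neg verum)) true := by
        obtain ⟨A, B, e⟩ := himp
        rw [e] at hs' ⊢
        exact hs'.imp_true
      rw [Bool.not_true, val_false_of_const hQ hM hRc hT himp hs' hν (by omega) _ (ht hst)]
      simp
    | false =>
      have hs' : Small I Q s (chain l (Fml.neg verum)) true := hs.neg
      rw [Bool.not_false, ht hs' ν (Finset.Subset.refl _) hν (by omega)]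
      simp

open Classical in
/-- **Lower bound for symmetric Frege proofs of first-order principles with infinite models.** -/
theorem fo_lower_bound (L : FirstOrder.Language.{0, 0}) [L.IsRelational] (k₀ : ℕ)
    (hk₀ : ∀ k, k₀ < k → IsEmpty (L.Relations k)) (ψ : L.Sentence)
    (M : Type) [L.Structure M] [Infinite M] (hψ : M ⊨ ψ)
    (Ax : Finset (Fml ℕ)) (sound : ∀ a ∈ Ax, ∀ τ : ℕ → Prop, a.eval τ) :
    ∃ K : ℕ, 0 < K ∧
      ∀ (n : ℕ) (Q : Finset (Fin n)) (D : List (Fml (Atom L (Fin n)))),
        IsProof Ax D → noModel ψ n ∈ D → FoSymmetric Q D → 2 ^ (Q.card / K) ≤ numSubs D := by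
  set r := Ax.sup fsize with hr
  set d := fdepth ψ with hd
  refine ⟨(3 + k₀) * (r + 2 * d + 8) + 2, by omega, ?_⟩
  intro n Q D hD hmem hsym
  set t := Q.card / ((3 + k₀) * (r + 2 * d + 8) + 2) with ht
  have hpos : 1 ≤ numSubs D := numSubs_pos hmem
  rcases Nat.eq_zero_or_pos t with h0 | h0
  · rw [h0]; simpa using hpos
  by_contra hcon
  push Not at hcon
  have hmul : ((3 + k₀) * (r + 2 * d + 8) + 2) * t ≤ Q.card := Nat.mul_div_le _ _
  set s := (3 + k₀) * t with hs
  have hs1 : 3 * t ≤ s := by rw [hs]; exact Nat.mul_le_mul_right _ (by omega)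
  have hs2 : k₀ ≤ s := by
    rw [hs]
    calc k₀ ≤ (3 + k₀) * 1 := by omega
      _ ≤ (3 + k₀) * t := Nat.mul_le_mul_left _ h0
  have hsum : (r + 2 * d + 8) * s + 2 * t ≤ Q.card := by
    calc (r + 2 * d + 8) * s + 2 * t = ((3 + k₀) * (r + 2 * d + 8) + 2) * t := by rw [hs]; ring
      _ ≤ Q.card := hmul
  have hs3 : 1 ≤ s := by omega
  have hroom : (r + 5) * s + 2 ≤ Q.card := by nlinarith
  have hroom2 : d * (s + 1) + 3 * s + 2 ≤ Q.card := by nlinarith
  have hQ2 : 2 ≤ Q.card := by omega
  have hsym' : SymmUnder (foInterp L n M) Q D := by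
    intro σ hσ C hC
    exact hsym σ (fun i hi => by
      by_contra h
      exact hi (hσ (mem_support.2 h))) C hC
  have hT : ∀ v, ((foInterp L n M).touch v).card ≤ s := by
    intro v
    rcases v with _ | ⟨k, R, a⟩
    · show (∅ : Finset (Fin n)).card ≤ s
      simp
    · show (Finset.univ.image a).card ≤ s
      refine Finset.card_image_le.trans ?_
      rw [Finset.card_univ, Fintype.card_fin]
      by_contra hc
      push Not at hc
      exact (hk₀ k (by omega)).elim R
  have key := symm_valid (I := foInterp L n M) (R := n) hs1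
    (fun F _ => Infinite.exists_notMem_finset F) (by simp)
    hT sound (fun a ha => Finset.le_sup (f := fsize) ha) hroom hD hsym' hcon _ hmem
  -- a partial injection covering the points outside `Q`
  obtain ⟨ν, _, h2, h3⟩ := exists_extend (R := n) (M := M)
    (fun F _ => Infinite.exists_notMem_finset F) (ν := (∅ : Finset (Fin n × M)))
    (by intro p hp; simp at hp) (Finset.univ \ Q) (by
      simpa using Finset.card_le_univ (dom (∅ : Finset (Fin n × M)) ∪ (Finset.univ \ Q)))
  have e1 : dom (∅ : Finset (Fin n × M)) = ∅ := rfl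
  rw [e1, Finset.empty_union] at h3
  have hQν : ∀ a, a ∉ Q → a ∈ dom ν := by
    intro a ha
    rw [h3]; simp [ha]
  have hcard : (dom ν ∩ Q).card = 0 := by
    rw [h3]
    have : (Finset.univ \ Q) ∩ Q = ∅ := by
      ext x; simp
    rw [this]; simp
  have hval := key.1 ν h2 hQν (by omega)
  unfold noModel at hval
  rw [val_neg] at hval
  have hsm : Small (foInterp L n M) Q s (translate n ψ default) false := key.2.neg
  rw [Bool.not_true, val_translate (R := n) hQ2 (by omega) (foInterp L n M) rfl (fun ν h => h)
    (fun k R a i => Finset.mem_image_of_mem a (Finset.mem_univ i))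
    (fun k R a x hx => by
      obtain ⟨i, _, hi⟩ := Finset.mem_image.1 hx
      exact ⟨i, hi⟩)
    (fun k R a ν => Iff.rfl) hT ψ false default default ν h2 hQν (fun i => i.elim0) hsm
    (by rw [hcard, ← hd]; omega)] at hval
  simp only [Bool.false_eq_true, iff_false] at hval
  exact hval hψ

end fo

end Pool.Agent.H66.SF
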