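import Pool.Agent.H66.SF.Defs

/-!
The pigeonhole tautologies and symmetric lists of formulas.
-/

namespace Pool.Agent.H66.SF

/-- `l₁ ∨ (l₂ ∨ ⋯ ∨ z)` where `A ∨ B` is `¬ A → B`. -/
def disj {V : Type} (z : Fml V) (l : List (Fml V)) : Fml V :=
  l.foldr (fun A B => A.neg.imp B) z

/-- `l₁ → (l₂ → ⋯ → z)`. -/
def chain {V : Type} (l : List (Fml V)) (z : Fml V) : Fml V := l.foldr Fml.imp z

/-- A fixed contradiction over the variables of the pigeonhole principle. -/
def bot (n : ℕ) : Fml (Fin (n + 2) × Fin (n + 1)) :=
  .neg (.imp (.var (0, 0)) (.var (0, 0)))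

/-- The hypotheses of the pigeonhole principle with `n + 2` pigeons and `n + 1` holes:
every pigeon has a hole, every hole has a pigeon, no hole has two pigeons, no pigeon has two
holes. -/
def phpHyps (n : ℕ) : List (Fml (Fin (n + 2) × Fin (n + 1))) :=
  (List.finRange (n + 2)).map (fun i =>
    disj (bot n) ((List.finRange (n + 1)).map (fun j => .var (i, j)))) ++
  (List.finRange (n + 1)).map (fun j =>
    disj (bot n) ((List.finRange (n + 2)).map (fun i => .var (i, j)))) ++
  (List.finRange (n + 2)).flatMap (fun i =>
    ((List.finRange (n + 2)).filter (fun i' => i ≠ i')).flatMap (fun i' =>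
      (List.finRange (n + 1)).map (fun j => .imp (.var (i, j)) (.neg (.var (i', j)))))) ++
  (List.finRange (n + 2)).flatMap (fun i =>
    (List.finRange (n + 1)).flatMap (fun j =>
      ((List.finRange (n + 1)).filter (fun j' => j ≠ j')).map (fun j' =>
        .imp (.var (i, j)) (.neg (.var (i, j'))))))

/-- The pigeonhole tautology: no relation is a bijection from `n + 2` pigeons to `n + 1` holes. -/
def php (n : ℕ) : Fml (Fin (n + 2) × Fin (n + 1)) := chain (phpHyps n) (bot n)

/-- A list of formulas in the variables of the pigeonhole principle is symmetric under `Q` if it is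
closed, up to rearrangement of formulas, under all renamings given by permutations of the
pigeons which fix all pigeons outside `Q`. -/
def Symmetric (n : ℕ) (Q : Finset (Fin (n + 2))) (L : List (Fml (Fin (n + 2) × Fin (n + 1)))) :
    Prop :=
  ∀ σ : Equiv.Perm (Fin (n + 2)), (∀ i, i ∉ Q → σ i = i) → ∀ A ∈ L, ∃ B ∈ L,
    Fml.Same (A.rename (fun v => (σ v.1, v.2))) B

end Pool.Agent.H66.SF
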