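import Pool.Agent.H66.SF.Blocks
import Pool.Agent.H66.SF.PhpDefs

/-!
The pigeonhole tautologies and the exponential lower bound for their symmetric Frege proofs.
-/

set_option linter.unusedSectionVars false

namespace Pool.Agent.H66.SF
open Equiv Equiv.Perm Fml

/-- the interpretation of the variables of the pigeonhole principle -/
def phpInterp (n : ℕ) : Interp (Fin (n + 2)) (Fin (n + 1)) (Fin (n + 2) × Fin (n + 1)) where
  act := fun g v => (g v.1, v.2)
  act_one := fun v => rfl
  act_mul := fun g h v => rfl
  touch := fun v => {v.1}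
  tr := fun v ν => v ∈ ν
  touch_act := by intro g v; simp
  tr_act := by
    rintro g ⟨i, j⟩ ν
    rw [mem_mv]; simp
  tr_mono := by
    rintro ⟨i, j⟩ ν ν' h h1 h2
    constructor
    · exact fun h3 => h1 h3
    · intro h3
      have h4 : i ∈ dom ν := h2 (by simp)
      obtain ⟨k, hk⟩ := mem_dom.1 h4
      have : j = k := (h _ h3 _ (h1 hk)).1 rfl
      rwa [this]

section

variable {n : ℕ} {Q : Finset (Fin (n + 2))}

theorem val_var_of_mem {b : Bool} {v : Fin (n + 2) × Fin (n + 1)}
    {ρ ρ' : Finset (Fin (n + 2) × Fin (n + 1))} (h : ρ ⊆ ρ') (h' : PM ρ') (hv : v.1 ∈ dom ρ')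
    (hb : v ∈ ρ' ↔ b = true) : val (phpInterp n) Q (.var v) b ρ :=
  ⟨ρ', h, h', by simpa [phpInterp] using hv, hb⟩

theorem val_disj {P M V : Type} [Fintype P] [DecidableEq P] [DecidableEq M]
    {I : Interp P M V} {Q : Finset P} {z : Fml V} {l : List (Fml V)} {ρ : Finset (P × M)} {A : Fml V}
    (hA : A ∈ l) (h : val I Q A true ρ) : val I Q (disj z l) true ρ := by
  induction l with
  | nil => simp at hA
  | cons B l ih =>
    show val I Q (B.neg.imp (disj z l)) true ρ
    rw [val_imp_true, val_neg]
    rw [List.mem_cons] at hA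
    rcases hA with rfl | hA
    · exact Or.inl h
    · exact Or.inr (ih hA)

theorem val_chain {P M V : Type} [Fintype P] [DecidableEq P] [DecidableEq M]
    {I : Interp P M V} {Q : Finset P} {z : Fml V} {l : List (Fml V)} {ρ : Finset (P × M)} :
    val I Q (chain l z) true ρ ↔ (∃ A ∈ l, val I Q A false ρ) ∨ val I Q z true ρ := by
  induction l with
  | nil => simp [chain]
  | cons B l ih =>
    show val I Q (B.imp (chain l z)) true ρ ↔ _
    rw [val_imp_true, ih]
    simp only [List.mem_cons, exists_eq_or_imp]
    exact or_assoc.symm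

theorem block_chain {V : Type} {l : List (Fml V)} {z A B : Fml V} (h : A.imp B ∈ l) :
    Block (chain l z) true (A.imp B) := by
  induction l with
  | nil => simp at h
  | cons C l ih =>
    show Block (C.imp (chain l z)) true (A.imp B)
    rw [List.mem_cons] at h
    rcases h with rfl | h
    · exact Or.inl (Or.inr (Or.inr ⟨rfl, rfl⟩))
    · exact Or.inr (Or.inl (ih h))

theorem block_chain_end {V : Type} {l : List (Fml V)} {z B : Fml V} (h : Block z true B) :
    Block (chain l z) true B := by
  induction l with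
  | nil => exact h
  | cons C l ih => exact Or.inr (Or.inl ih)

/-- an implication which is valid at all partial matchings of size at most `n - 1` is not refuted -/
theorem not_val_false {s : ℕ} {A B : Fml (Fin (n + 2) × Fin (n + 1))}
    (hQ : s + 3 ≤ Q.card)
    (hs : (fsupp (phpInterp n) Q (A.imp B) ∩ Q).card ≤ s)
    (hv : ∀ ρ : Finset (Fin (n + 2) × Fin (n + 1)), PM ρ → (dom ρ).card + 2 ≤ n + 1 →
      val (phpInterp n) Q (A.imp B) true ρ) (ν : Finset (Fin (n + 2) × Fin (n + 1))) :
    ¬ val (phpInterp n) Q (A.imp B) false ν := by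
  rw [val_imp_false]
  rintro ⟨ν', h1, h2, h3, h4⟩
  apply h4
  apply hv _ (h2.mono (res_subset _ _))
  rw [dom_res_of_subset h3]
  have := dom_card_le (Q := Q) (D := fsupp (phpInterp n) Q (A.imp B))
  have hQP : Q.card ≤ n + 2 := by simpa using Finset.card_le_univ Q
  rw [Fintype.card_fin] at this
  omega

theorem hM_fin (n : ℕ) : ∀ F : Finset (Fin (n + 1)), F.card < n + 1 → ∃ x, x ∉ F := by
  intro F hF
  by_contra h
  push Not at h
  have : F = Finset.univ := Finset.eq_univ_iff_forall.2 h
  rw [this] at hF
  simp at hF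

theorem disj_isImp {V : Type} {z A : Fml V} {l : List (Fml V)} :
    disj z (A :: l) = A.neg.imp (disj z l) := rfl

/-- the hypotheses are not refuted -/
theorem hyps_not_val_false {s : ℕ} (hQ : s + 3 ≤ Q.card)
    (hsm : Small (phpInterp n) Q s (php n) true) (ν : Finset (Fin (n + 2) × Fin (n + 1)))
    {C : Fml (Fin (n + 2) × Fin (n + 1))} (hC : C ∈ phpHyps n) :
    ¬ val (phpInterp n) Q C false ν := by
  have gen : ∀ A B, C = Fml.imp A B → (∀ ρ : Finset (Fin (n + 2) × Fin (n + 1)), PM ρ →
      (dom ρ).card + 2 ≤ n + 1 → val (phpInterp n) Q C true ρ) →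
      ¬ val (phpInterp n) Q C false ν := by
    rintro A B rfl h
    exact not_val_false hQ (hsm _ (block_chain hC)) h ν
  have hC' := hC
  unfold phpHyps at hC'
  simp only [List.mem_append, List.mem_map, List.mem_finRange, true_and, List.mem_flatMap,
    List.mem_filter, decide_eq_true_eq] at hC'
  rcases hC' with ((⟨i, rfl⟩ | ⟨j, rfl⟩) | ⟨i, i', hne, j, rfl⟩) | ⟨i, j, j', hne, rfl⟩
  · obtain ⟨A, l, e⟩ : ∃ A l, (List.finRange (n + 1)).map (fun j =>
      (Fml.var (i, j) : Fml (Fin (n + 2) × Fin (n + 1)))) = A :: l := by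
      cases h : (List.finRange (n + 1)).map (fun j =>
        (Fml.var (i, j) : Fml (Fin (n + 2) × Fin (n + 1)))) with
      | nil => simp [List.finRange_succ] at h
      | cons A l => exact ⟨A, l, rfl⟩
    refine gen _ _ (by rw [e]; exact disj_isImp) ?_
    intro ρ hρ hρc
    obtain ⟨ρ', h1, h2, h3⟩ := exists_extend (hM_fin n) hρ {i} (by
      have := Finset.card_union_le (dom ρ) {i}
      rw [Finset.card_singleton] at this
      omega)
    have hi : i ∈ dom ρ' := by rw [h3]; simp
    obtain ⟨j, hj⟩ := mem_dom.1 hi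
    apply val_disj (A := .var (i, j)) (by simp)
    exact val_var_of_mem h1 h2 hi (by simp [hj])
  · obtain ⟨A, l, e⟩ : ∃ A l, (List.finRange (n + 2)).map (fun i =>
      (Fml.var (i, j) : Fml (Fin (n + 2) × Fin (n + 1)))) = A :: l := by
      cases h : (List.finRange (n + 2)).map (fun i =>
        (Fml.var (i, j) : Fml (Fin (n + 2) × Fin (n + 1)))) with
      | nil => simp [List.finRange_succ] at h
      | cons A l => exact ⟨A, l, rfl⟩
    refine gen _ _ (by rw [e]; exact disj_isImp) ?_
    intro ρ hρ hρc
    by_cases hj : ∃ a, (a, j) ∈ ρ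
    · obtain ⟨a, ha⟩ := hj
      apply val_disj (A := .var (a, j)) (by simp)
      exact val_var_of_mem (Finset.Subset.refl _) hρ (mem_dom.2 ⟨j, ha⟩) (by simp [ha])
    · push Not at hj
      obtain ⟨a, ha⟩ : ∃ a, a ∉ dom ρ := by
        by_contra h
        push Not at h
        have : dom ρ = Finset.univ := Finset.eq_univ_iff_forall.2 h
        rw [this] at hρc
        simp at hρc
      have hP : PM (insert (a, j) ρ) := by
        intro p hp q hq
        rw [Finset.mem_insert] at hp hq
        rcases hp with rfl | hp <;> rcases hq with rfl | hq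
        · simp
        · constructor
          · intro e
            exact absurd (mem_dom.2 ⟨q.2, by rw [show a = q.1 from e]; exact hq⟩) ha
          · intro e
            exact absurd (by rw [show j = q.2 from e]; exact hq) (hj q.1)
        · constructor
          · intro e
            exact absurd (mem_dom.2 ⟨p.2, by rw [show a = p.1 from e.symm]; exact hp⟩) ha
          · intro e
            exact absurd (by rw [show j = p.2 from e.symm]; exact hp) (hj p.1)
        · exact hρ p hp q hq
      apply val_disj (A := .var (a, j)) (by simp)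
      exact val_var_of_mem (Finset.subset_insert _ _) hP
        (mem_dom.2 ⟨j, Finset.mem_insert_self _ _⟩) (by simp)
  · refine gen _ _ rfl ?_
    intro ρ hρ hρc
    obtain ⟨ρ', h1, h2, h3⟩ := exists_extend (hM_fin n) hρ {i, i'} (by
      have := Finset.card_union_le (dom ρ) {i, i'}
      have := Finset.card_le_two (a := i) (b := i')
      omega)
    have hi : i ∈ dom ρ' := by rw [h3]; simp
    have hi' : i' ∈ dom ρ' := by rw [h3]; simp
    rw [val_imp_true, val_neg]
    by_cases hj : (i, j) ∈ ρ'
    · right
      refine val_var_of_mem h1 h2 hi' ?_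
      simp only [Bool.not_true, Bool.false_eq_true, iff_false]
      intro hj'
      exact hne ((h2 _ hj _ hj').2 rfl)
    · left
      exact val_var_of_mem h1 h2 hi (by simp [hj])
  · refine gen _ _ rfl ?_
    intro ρ hρ hρc
    obtain ⟨ρ', h1, h2, h3⟩ := exists_extend (hM_fin n) hρ {i} (by
      have := Finset.card_union_le (dom ρ) {i}
      rw [Finset.card_singleton] at this
      omega)
    have hi : i ∈ dom ρ' := by rw [h3]; simp
    rw [val_imp_true, val_neg]
    by_cases hj : (i, j) ∈ ρ'
    · right
      refine val_var_of_mem h1 h2 hi ?_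
      simp only [Bool.not_true, Bool.false_eq_true, iff_false]
      intro hj'
      exact hne ((h2 _ hj _ hj').1 rfl)
    · left
      exact val_var_of_mem h1 h2 hi (by simp [hj])

theorem php_not_val {s : ℕ} (hQ : s + 3 ≤ Q.card)
    (hsm : Small (phpInterp n) Q s (php n) true) (ν : Finset (Fin (n + 2) × Fin (n + 1))) :
    ¬ val (phpInterp n) Q (php n) true ν := by
  unfold php
  rw [val_chain]
  rintro (⟨C, hC, h⟩ | h)
  · exact hyps_not_val_false hQ hsm ν hC h
  · unfold bot at h
    rw [val_neg] at h
    refine not_val_false hQ (hsm _ (block_chain_end ?_)) ?_ ν h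
    · exact Or.inr (Or.inr ⟨rfl, rfl⟩)
    · intro ρ hρ hρc
      obtain ⟨ρ', h1, h2, h3⟩ := exists_extend (hM_fin n) hρ {0} (by
        have := Finset.card_union_le (dom ρ) {0}
        rw [Finset.card_singleton] at this
        omega)
      have hi : (0 : Fin (n + 2)) ∈ dom ρ' := by rw [h3]; simp
      rw [val_imp_true]
      by_cases hj : ((0 : Fin (n + 2)), (0 : Fin (n + 1))) ∈ ρ'
      · exact Or.inr (val_var_of_mem h1 h2 hi (by simp [hj]))
      · exact Or.inl (val_var_of_mem h1 h2 hi (by simp [hj]))

end

/-- **Exponential lower bound for symmetric Frege proofs of the pigeonhole principle.** -/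
theorem symmetric_lower_bound (Ax : Finset (Fml ℕ)) (sound : ∀ a ∈ Ax, ∀ τ : ℕ → Prop, a.eval τ) :
    ∃ K : ℕ, 0 < K ∧
    ∀ (n : ℕ) (Q : Finset (Fin (n + 2))) (L : List (Fml (Fin (n + 2) × Fin (n + 1)))),
      IsProof Ax L → php n ∈ L → Symmetric n Q L →
      2 ^ (Q.card / K) ≤ numSubs L := by
  classical
  set r := Ax.sup fsize with hr
  refine ⟨3 * (r + 5) + 3, by omega, ?_⟩
  intro n Q L hL hphp hsym
  set t := Q.card / (3 * (r + 5) + 3) with ht
  have hpos : 1 ≤ numSubs L := numSubs_pos hphp
  rcases Nat.eq_zero_or_pos t with h0 | h0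
  · rw [h0]; simpa using hpos
  by_contra hcon
  push Not at hcon
  have hmul : (3 * (r + 5) + 3) * t ≤ Q.card := Nat.mul_div_le _ _
  have hroom : (r + 5) * (3 * t) + 2 ≤ Q.card := by nlinarith
  have hsym' : SymmUnder (phpInterp n) Q L := by
    intro σ hσ C hC
    exact hsym σ (fun i hi => by
      by_contra h
      exact hi (hσ (mem_support.2 h))) C hC
  have key := symm_valid (I := phpInterp n) (R := n + 1) (le_refl (3 * t)) (hM_fin n) (by simp)
    (fun v => by simp [phpInterp]; omega) sound
    (fun a ha => Finset.le_sup (f := fsize) ha) hroom hL hsym' hcon (php n) hphp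
  -- a partial matching covering the pigeons outside `Q`
  have hQP : Q.card ≤ n + 2 := by simpa using Finset.card_le_univ Q
  obtain ⟨ν, _, h2, h3⟩ := exists_extend (hM_fin n) (ν := (∅ : Finset (Fin (n + 2) × Fin (n + 1))))
    (by intro p hp; simp at hp) (Finset.univ \ Q) (by
      have e1 : dom (∅ : Finset (Fin (n + 2) × Fin (n + 1))) = ∅ := rfl
      rw [e1, Finset.empty_union, Finset.card_sdiff_of_subset (Finset.subset_univ _),
        Finset.card_univ, Fintype.card_fin]
      omega)
  have e1 : dom (∅ : Finset (Fin (n + 2) × Fin (n + 1))) = ∅ := rfl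
  rw [e1, Finset.empty_union] at h3
  refine php_not_val (s := 3 * t) (by nlinarith) key.2 ν (key.1 ν h2 ?_ ?_)
  · intro a ha
    rw [h3]; simp [ha]
  · rw [h3]
    have : (Finset.univ \ Q) ∩ Q = ∅ := by
      ext x; simp
    rw [this]; simp

end Pool.Agent.H66.SF
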