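import Pool.Agent.H66.SF.Php

/-!
Exponential lower bound for symmetric Frege proofs of the pigeonhole principle.
-/

namespace Pool.Agent.H66.SF.ResultPhp

open Pool.Agent.H66.SF

/-- Let `Ax` be a finite set of sound axiom schemes over negation and implication (for instance
those of a Frege system).  There is a constant `K` such that every derivation from `Ax` with
modus ponens of the (bijective) pigeonhole tautology with `n + 2` pigeons whose set of lines is
closed, up to rearrangement of formulas, under the permutations of a set `Q` of pigeons contains
at least `2 ^ (|Q| / K)` distinct subformulas. -/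
theorem result (Ax : Finset (Fml ℕ)) (sound : ∀ a ∈ Ax, ∀ τ : ℕ → Prop, a.eval τ) :
    ∃ K : ℕ, 0 < K ∧
      ∀ (n : ℕ) (Q : Finset (Fin (n + 2))) (L : List (Fml (Fin (n + 2) × Fin (n + 1)))),
        IsProof Ax L → php n ∈ L → Symmetric n Q L → 2 ^ (Q.card / K) ≤ numSubs L :=
  symmetric_lower_bound Ax sound

end Pool.Agent.H66.SF.ResultPhp
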