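import Pool.Agent.H66.SF.Eval

/-!
Soundness of Frege proofs with small supports for the local evaluation.
-/

set_option linter.unusedSectionVars false

namespace Pool.Agent.H66.SF
open Equiv Equiv.Perm Fml

variable {P M V : Type} [Fintype P] [DecidableEq P] [DecidableEq M]

/-- robust truth excludes truth of the opposite sign -/
theorem exclusion {I : Interp P M V} {Q : Finset P} {s : ℕ} (hT : ∀ v, (I.touch v).card ≤ s)
    (C : Fml V) : ∀ (b : Bool), Small I Q s C b → Small I Q s C (!b) →
      ∀ ν : Finset (P × M), PM ν → (∀ a, a ∉ Q → a ∈ dom ν) →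
      (∀ ν₂, ν ⊆ ν₂ → PM ν₂ → val I Q C b ν₂) → ¬ val I Q C (!b) ν := by
  induction C with
  | var v =>
    rintro b _ _ ν hν hQ hrob ⟨ν', h1, h2, h3, h4⟩
    obtain ⟨ν'', h5, h6, h7, h8⟩ := hrob ν' h1 h2
    rw [I.tr_mono v _ _ h6 h5 h3, h8] at h4
    cases b <;> simp at h4
  | neg A ih =>
    intro b hs hs' ν hν hQ hrob hv
    rw [val_neg] at hv
    exact ih (!b) hs.neg hs'.neg ν hν hQ (fun ν₂ h5 h6 => by
      have := hrob ν₂ h5 h6
      rwa [val_neg] at this) hv
  | imp A B _ _ =>
    intro b hs hs' ν hν hQ hrob hv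
    -- core statement: `true` robustly and `false` cannot hold together
    have core : ∀ ν : Finset (P × M), PM ν → (∀ ν₂, ν ⊆ ν₂ → PM ν₂ → val I Q (A.imp B) true ν₂) →
        ¬ val I Q (A.imp B) false ν := by
      rintro ν hν hr hf
      rw [val_imp_false] at hf
      obtain ⟨ν', h1, h2, h3, h4⟩ := hf
      exact h4 (val_anti _ _ (res_subset _ _) (hr ν' h1 h2))
    cases b with
    | true => exact core ν hν hrob hv
    | false =>
      obtain ⟨ν₁, h1, h2, _, h4⟩ := witness hT (A.imp B) true hs' ν hν hQ hv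
      exact core ν₁ h2 h4 (hrob ν₁ h1 h2)

/-- the points which have to be covered in order to decide a formula of sign `b` -/
noncomputable def need (I : Interp P M V) (Q : Finset P) : Fml V → Bool → Finset P
  | .var v, _ => I.touch v
  | .neg A, b => need I Q A (!b)
  | .imp _ _, true => ∅
  | .imp A B, false => fsupp I Q (.imp A B)

theorem need_card {I : Interp P M V} {Q : Finset P} {s : ℕ} (hT : ∀ v, (I.touch v).card ≤ s)
    (C : Fml V) (b : Bool) (hs : Small I Q s C b) : (need I Q C b ∩ Q).card ≤ s := by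
  induction C generalizing b with
  | var v => exact (Finset.card_le_card Finset.inter_subset_left).trans (hT v)
  | neg A ih => exact ih _ hs.neg
  | imp A B _ _ =>
    cases b with
    | true => simp [need]
    | false => exact hs.imp_self

/-- if everything needed is covered then the two signs are opposite -/
theorem val_flip {I : Interp P M V} {Q : Finset P} {s : ℕ} (hQ : 2 ≤ Q.card)
    (hT : ∀ v, (I.touch v).card ≤ s) (C : Fml V) {ν : Finset (P × M)} (hν : PM ν)
    (hroom : (dom ν).card + 2 * s + 2 ≤ Fintype.card P) :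
    Small I Q s C true → Small I Q s C false →
    need I Q C true ⊆ dom ν → need I Q C false ⊆ dom ν →
    (val I Q C false ν ↔ ¬ val I Q C true ν) := by
  induction C with
  | var v =>
    intro _ _ h1 _
    have key : ∀ b, val I Q (Fml.var v) b ν ↔ (I.tr v ν ↔ b = true) := by
      intro b
      constructor
      · rintro ⟨ν', h2, h3, h4, h5⟩
        rw [I.tr_mono v _ _ h3 h2 h1]; exact h5
      · intro h2
        exact ⟨ν, Finset.Subset.refl _, hν, h1, h2⟩
    rw [key, key]
    simp
  | neg A ih =>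
    intro hs1 hs2 h1 h2
    rw [val_neg, val_neg]
    have := ih hs2.neg hs1.neg h2 h1
    simp only [Bool.not_true, Bool.not_false]
    rw [this, not_not]
  | imp A B _ _ =>
    intro hs1 hs2 _ h2
    replace h2 : fsupp I Q (A.imp B) ⊆ dom ν := h2
    rw [val_imp_false]
    have hr := val_res hQ hT hs1 hν h2 hroom
    constructor
    · rintro ⟨ν', h3, h4, h5, h6⟩
      rw [← res_eq_of_subset h3 h4 h2] at h6
      rwa [hr] at h6
    · intro h3
      exact ⟨ν, Finset.Subset.refl _, hν, h2, by rwa [hr]⟩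

/-- `Occ β b X c`: the metavariable `X` occurs with sign `c` in `β` evaluated with sign `b`. -/
def Occ : Fml ℕ → Bool → ℕ → Bool → Prop
  | .var Y, b, X, c => Y = X ∧ b = c
  | .neg γ, b, X, c => Occ γ (!b) X c
  | .imp γ δ, _, X, c => Occ γ false X c ∨ Occ δ true X c

/-- the points which have to be covered in order to evaluate an instance of a scheme -/
noncomputable def cover (I : Interp P M V) (Q : Finset P) (θ : ℕ → Fml V) :
    Fml ℕ → Bool → Finset P
  | .var X, b => need I Q (θ X) b
  | .neg γ, b => cover I Q θ γ (!b)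
  | .imp γ δ, b => (cover I Q θ γ false ∪ cover I Q θ δ true) ∪
      (if b then ∅ else fsupp I Q ((Fml.imp γ δ).subst θ))

/-- number of symbols of a formula -/
def fsize : Fml ℕ → ℕ
  | .var _ => 1
  | .neg γ => fsize γ + 1
  | .imp γ δ => fsize γ + fsize δ + 1

theorem cover_card {I : Interp P M V} {Q : Finset P} {s : ℕ} (hT : ∀ v, (I.touch v).card ≤ s)
    (θ : ℕ → Fml V) (β : Fml ℕ) (b : Bool) (hs : Small I Q s (β.subst θ) b) :
    (cover I Q θ β b ∩ Q).card ≤ fsize β * s := by
  induction β generalizing b with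
  | var X =>
    have h1 := need_card hT (θ X) b hs
    have h2 : fsize (.var X) * s = s := by simp [fsize]
    rw [h2]
    exact h1
  | neg γ ih =>
    refine (ih _ hs.neg).trans ?_
    exact Nat.mul_le_mul_right _ (by simp [fsize])
  | imp γ δ ih1 ih2 =>
    have h1 := ih1 false hs.imp_left
    have h2 := ih2 true hs.imp_right
    have h3 : ((if b then ∅ else fsupp I Q ((Fml.imp γ δ).subst θ)) ∩ Q : Finset P).card ≤ s := by
      cases b with
      | true => simp
      | false => exact hs.imp_self
    have h4 : cover I Q θ (.imp γ δ) b ∩ Q = ((cover I Q θ γ false ∩ Q) ∪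
        (cover I Q θ δ true ∩ Q)) ∪ ((if b then ∅ else fsupp I Q ((Fml.imp γ δ).subst θ)) ∩ Q) := by
      show ((cover I Q θ γ false ∪ cover I Q θ δ true) ∪
        (if b then ∅ else fsupp I Q ((Fml.imp γ δ).subst θ))) ∩ Q = _
      rw [Finset.union_inter_distrib_right, Finset.union_inter_distrib_right]
    rw [h4]
    refine (Finset.card_union_le _ _).trans ?_
    have h5 := Finset.card_union_le (cover I Q θ γ false ∩ Q) (cover I Q θ δ true ∩ Q)
    have h6 : fsize (.imp γ δ) * s = fsize γ * s + fsize δ * s + s := by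
      simp [fsize]; ring
    rw [h6]
    omega

/-- evaluation of an instance of a scheme -/
theorem val_scheme {I : Interp P M V} {Q : Finset P} {s : ℕ} (hQ : 2 ≤ Q.card)
    (hT : ∀ v, (I.touch v).card ≤ s) (θ : ℕ → Fml V) {ν : Finset (P × M)} (hν : PM ν)
    (hroom : (dom ν).card + 2 * s + 2 ≤ Fintype.card P) (τ : ℕ → Prop)
    (β : Fml ℕ) : ∀ (b : Bool), Small I Q s (β.subst θ) b → cover I Q θ β b ⊆ dom ν →
    (∀ X c, Occ β b X c → (val I Q (θ X) c ν ↔ (τ X ↔ c = true))) →
    (val I Q (β.subst θ) b ν ↔ (β.eval τ ↔ b = true)) := by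
  induction β with
  | var X =>
    intro b _ _ h
    exact h X b ⟨rfl, rfl⟩
  | neg γ ih =>
    intro b hs hc h
    show val I Q (Fml.neg (γ.subst θ)) b ν ↔ _
    rw [val_neg, ih (!b) hs.neg hc h]
    show _ ↔ (¬ γ.eval τ ↔ b = true)
    cases b <;> simp
  | imp γ δ ih1 ih2 =>
    intro b hs hc h
    have hc' : (cover I Q θ γ false ∪ cover I Q θ δ true) ∪
      (if b then ∅ else fsupp I Q ((Fml.imp γ δ).subst θ)) ⊆ dom ν := hc
    rw [Finset.union_subset_iff, Finset.union_subset_iff] at hc'
    obtain ⟨⟨hc1, hc2⟩, hc3⟩ := hc'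
    have e1 := ih1 false hs.imp_left hc1 (fun X c hX => h X c (Or.inl hX))
    have e2 := ih2 true hs.imp_right hc2 (fun X c hX => h X c (Or.inr hX))
    have ht : val I Q ((Fml.imp γ δ).subst θ) true ν ↔ (Fml.imp γ δ).eval τ := by
      show val I Q (Fml.imp (γ.subst θ) (δ.subst θ)) true ν ↔ (γ.eval τ → δ.eval τ)
      rw [val_imp_true, e1, e2]
      simp only [iff_true, Bool.false_eq_true, iff_false]
      tauto
    cases b with
    | true => rw [ht]; simp
    | false =>
      have hs1 : Small I Q s ((Fml.imp γ δ).subst θ) true := hs.imp_true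
      have hc4 : fsupp I Q ((Fml.imp γ δ).subst θ) ⊆ dom ν := hc3
      have hf : val I Q ((Fml.imp γ δ).subst θ) false ν ↔
          ¬ val I Q ((Fml.imp γ δ).subst θ) true ν :=
        val_flip hQ hT ((Fml.imp γ δ).subst θ) hν hroom hs1 hs (by
          show (∅ : Finset P) ⊆ _
          exact Finset.empty_subset _) hc4
      rw [hf, ht]
      simp

/-- validity at small partial injections -/
def Valid (I : Interp P M V) (Q : Finset P) (k : ℕ) (C : Fml V) : Prop :=
  ∀ ν : Finset (P × M), PM ν → (∀ a, a ∉ Q → a ∈ dom ν) → (dom ν ∩ Q).card ≤ k →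
    val I Q C true ν

theorem dom_card_le {Q : Finset P} {D : Finset P} : D.card ≤ Fintype.card P - Q.card + (D ∩ Q).card := by
  have h1 : D.card ≤ (D ∩ Q).card + (Finset.univ \ Q).card := by
    rw [← Finset.card_union_of_disjoint]
    · apply Finset.card_le_card
      intro x hx
      simp only [Finset.mem_union, Finset.mem_inter, Finset.mem_sdiff, Finset.mem_univ, true_and]
      by_cases h : x ∈ Q
      · exact Or.inl ⟨hx, h⟩
      · exact Or.inr h
    · rw [Finset.disjoint_left]
      intro x h1 h2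
      simp only [Finset.mem_inter, Finset.mem_sdiff] at h1 h2
      exact h2.2 h1.2
  rw [Finset.card_sdiff_of_subset (Finset.subset_univ _), Finset.card_univ] at h1
  omega

theorem valid_scheme {I : Interp P M V} {Q : Finset P} {s R k r : ℕ} (hQ : 2 ≤ Q.card)
    (hM : ∀ F : Finset M, F.card < R → ∃ x, x ∉ F) (hR : Fintype.card P ≤ R + 1)
    (hT : ∀ v, (I.touch v).card ≤ s) (θ : ℕ → Fml V) (a : Fml ℕ) (ha : ∀ τ, a.eval τ)
    (har : fsize a ≤ r) (hs : Small I Q s (a.subst θ) true)
    (hroom : k + r * s + 2 * s + 2 ≤ Q.card) : Valid I Q k (a.subst θ) := by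
  classical
  intro ν hν hνQ hνk
  have hQP : Q.card ≤ Fintype.card P := Finset.card_le_univ Q
  have hcov := cover_card (Q := Q) hT θ a true hs
  have hcov' : (cover I Q θ a true ∩ Q).card ≤ r * s :=
    hcov.trans (Nat.mul_le_mul_right _ har)
  have hun : ((dom ν ∪ cover I Q θ a true) ∩ Q).card ≤ k + r * s := by
    rw [Finset.union_inter_distrib_right]
    exact (Finset.card_union_le _ _).trans (by omega)
  have hun' := dom_card_le (Q := Q) (D := dom ν ∪ cover I Q θ a true)
  obtain ⟨ν', h1, h2, h3⟩ := exists_extend hM hν (cover I Q θ a true) (by omega)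
  have hroom' : (dom ν').card + 2 * s + 2 ≤ Fintype.card P := by rw [h3]; omega
  have hcd : cover I Q θ a true ⊆ dom ν' := by rw [h3]; exact Finset.subset_union_right
  apply val_anti _ _ h1
  -- the assignment of the metavariables
  let τ : ℕ → Prop := fun X => if Occ a true X true then val I Q (θ X) true ν' else
    ¬ val I Q (θ X) false ν'
  have hocc : ∀ (β : Fml ℕ) (b : Bool) (X : ℕ) (c : Bool), Occ β b X c →
      Small I Q s (β.subst θ) b → cover I Q θ β b ⊆ dom ν' →
      Small I Q s (θ X) c ∧ need I Q (θ X) c ⊆ dom ν' := by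
    intro β
    induction β with
    | var Y =>
      rintro b X c ⟨rfl, rfl⟩ hs' hc'
      exact ⟨hs', hc'⟩
    | neg γ ih => intro b X c hX hs' hc'; exact ih _ X c hX hs'.neg hc'
    | imp γ δ ih1 ih2 =>
      intro b X c hX hs' hc'
      have hc'' : (cover I Q θ γ false ∪ cover I Q θ δ true) ∪
        (if b then ∅ else fsupp I Q ((Fml.imp γ δ).subst θ)) ⊆ dom ν' := hc'
      rw [Finset.union_subset_iff, Finset.union_subset_iff] at hc''
      rcases hX with hX | hX
      · exact ih1 _ X c hX hs'.imp_left hc''.1.1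
      · exact ih2 _ X c hX hs'.imp_right hc''.1.2
  have hτ : ∀ X c, Occ a true X c → (val I Q (θ X) c ν' ↔ (τ X ↔ c = true)) := by
    intro X c hX
    by_cases h4 : Occ a true X true
    · have e : τ X = val I Q (θ X) true ν' := if_pos h4
      cases c with
      | true => rw [e]; simp
      | false =>
        have o1 := hocc a true X true h4 hs hcd
        have o2 := hocc a true X false hX hs hcd
        rw [e, val_flip hQ hT (θ X) h2 hroom' o1.1 o2.1 o1.2 o2.2]
        simp
    · have e : τ X = ¬ val I Q (θ X) false ν' := if_neg h4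
      cases c with
      | true => exact absurd hX h4
      | false => rw [e]; simp
  have := (val_scheme hQ hT θ h2 hroom' τ a true hs hcd hτ).2 (by simp [ha τ])
  exact this

theorem valid_mp {I : Interp P M V} {Q : Finset P} {s R k : ℕ} (hQ : 2 ≤ Q.card)
    (hM : ∀ F : Finset M, F.card < R → ∃ x, x ∉ F) (hR : Fintype.card P ≤ R + 1)
    (hT : ∀ v, (I.touch v).card ≤ s) {A B : Fml V} (hsA : Small I Q s A true)
    (hsAB : Small I Q s (A.imp B) true) (hsB : Small I Q s B true)
    (hfB : (fsupp I Q B ∩ Q).card ≤ s) (hk : 2 * s ≤ k)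
    (hroom : k + 3 * s + 2 ≤ Q.card) (hA : Valid I Q k A) (hAB : Valid I Q k (A.imp B)) :
    Valid I Q k B := by
  intro ν hν hνQ hνk
  by_contra hcon
  have hQP : Q.card ≤ Fintype.card P := Finset.card_le_univ Q
  -- cover the support of `B`
  have hun : ((dom ν ∪ fsupp I Q B) ∩ Q).card ≤ k + s := by
    rw [Finset.union_inter_distrib_right]
    exact (Finset.card_union_le _ _).trans (by omega)
  have hun' := dom_card_le (Q := Q) (D := dom ν ∪ fsupp I Q B)
  obtain ⟨ν', h1, h2, h3⟩ := exists_extend hM hν (fsupp I Q B) (by omega)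
  have hc' : ¬ val I Q B true ν' := fun h => hcon (val_anti _ _ h1 h)
  have hsub : fsupp I Q B ⊆ dom ν' := by rw [h3]; exact Finset.subset_union_right
  rw [← val_res hQ hT hsB h2 hsub (by rw [h3]; omega)] at hc'
  set μ := res ν' (fsupp I Q B) with hμ
  have hμP : PM μ := h2.mono (res_subset _ _)
  have hμd : dom μ = fsupp I Q B := dom_res_of_subset hsub
  have hμQ : ∀ a, a ∉ Q → a ∈ dom μ := by rw [hμd]; exact compl_subset_fsupp hQ B
  have h4 := hAB μ hμP hμQ (by rw [hμd]; omega)
  rw [val_imp_true] at h4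
  rcases h4 with h4 | h4
  · obtain ⟨ν₁, h5, h6, h7, h8⟩ := witness hT A false hsAB.imp_left μ hμP hμQ h4
    have hQ1 : ∀ a, a ∉ Q → a ∈ dom ν₁ := fun a ha => dom_mono h5 (hμQ a ha)
    have hcard : (dom ν₁ ∩ Q).card ≤ k := by
      have e1 : dom ν₁ ∩ Q ⊆ (dom μ ∩ Q) ∪ (dom ν₁ \ dom μ) := by
        intro x hx
        simp only [Finset.mem_union, Finset.mem_inter, Finset.mem_sdiff] at hx ⊢
        by_cases h : x ∈ dom μ
        · exact Or.inl ⟨h, hx.2⟩
        · exact Or.inr ⟨hx.1, h⟩
      have e2 := Finset.card_le_card e1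
      have e3 := Finset.card_union_le (dom μ ∩ Q) (dom ν₁ \ dom μ)
      have e4 : (dom μ ∩ Q).card ≤ s := by rw [hμd]; exact hfB
      omega
    have h9 := hA ν₁ h6 hQ1 hcard
    exact exclusion hT A false hsAB.imp_left hsA ν₁ h6 hQ1 h8 h9
  · exact hc' h4

/-- **Soundness**: every line of a proof whose lines and blocks have small support is valid. -/
theorem proof_valid {I : Interp P M V} {Q : Finset P} {s R r : ℕ} (hQ : 2 ≤ Q.card)
    (hM : ∀ F : Finset M, F.card < R → ∃ x, x ∉ F) (hR : Fintype.card P ≤ R + 1)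
    (hT : ∀ v, (I.touch v).card ≤ s) {Ax : Finset (Fml ℕ)} (hAx : ∀ a ∈ Ax, ∀ τ, a.eval τ)
    (hr : ∀ a ∈ Ax, fsize a ≤ r) (hroom : (r + 5) * s + 2 ≤ Q.card)
    {L : List (Fml V)} (hL : IsProof Ax L)
    (hs : ∀ C ∈ L, Small I Q s C true) (hf : ∀ C ∈ L, (fsupp I Q C ∩ Q).card ≤ s) :
    ∀ C ∈ L, Valid I Q (2 * s) C := by
  induction hL with
  | nil => simp
  | ax a θ _ ha ih =>
    intro C hC
    rw [List.mem_cons] at hC
    rcases hC with rfl | hC
    · apply valid_scheme hQ hM hR hT θ a (hAx a ha) (hr a ha) (hs _ (List.mem_cons_self ..))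
      nlinarith
    · exact ih (fun C hC => hs C (List.mem_cons_of_mem _ hC))
        (fun C hC => hf C (List.mem_cons_of_mem _ hC)) C hC
  | mp A B _ hA hAB ih =>
    intro C hC
    rw [List.mem_cons] at hC
    have ih' := ih (fun C hC => hs C (List.mem_cons_of_mem _ hC))
        (fun C hC => hf C (List.mem_cons_of_mem _ hC))
    rcases hC with rfl | hC
    · apply valid_mp hQ hM hR hT (hs A (List.mem_cons_of_mem _ hA))
        (hs _ (List.mem_cons_of_mem _ hAB)) (hs _ (List.mem_cons_self ..))
        (hf _ (List.mem_cons_self ..)) (le_refl _) _ (ih' A hA) (ih' _ hAB)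
      nlinarith
    · exact ih' C hC

end Pool.Agent.H66.SF
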