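import Mathlib

/-!
Subgroups of small index in a symmetric group contain a large alternating group
(elementary version with the commutator trick of Bochert).
-/

namespace Pool.Agent.H66.SF
open Equiv Equiv.Perm

variable {P : Type} [Fintype P] [DecidableEq P]

/-- the number of pairwise inequivalent permutations with support in `Q` is at most `N`. -/
def IndexLE (H : Subgroup (Perm P)) (Q : Finset P) (N : ℕ) : Prop :=
  ∀ T : Finset (Perm P), (∀ σ ∈ T, σ.support ⊆ Q) →
    (∀ σ ∈ T, ∀ τ ∈ T, σ⁻¹ * τ ∈ H → σ = τ) → T.card ≤ N

theorem comm_threeCycle {g h : Perm P} {x : P} (hx : g.support ∩ h.support = {x}) :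
    (g * h * g⁻¹ * h⁻¹).IsThreeCycle := by
  have hxg : g x ≠ x := by
    have : x ∈ g.support ∩ h.support := by rw [hx]; simp
    exact mem_support.1 (Finset.mem_inter.1 this).1
  have hxh : h x ≠ x := by
    have : x ∈ g.support ∩ h.support := by rw [hx]; simp
    exact mem_support.1 (Finset.mem_inter.1 this).2
  have key : ∀ z, g z ≠ z → h z ≠ z → z = x := by
    intro z h1 h2
    have : z ∈ g.support ∩ h.support := Finset.mem_inter.2 ⟨mem_support.2 h1, mem_support.2 h2⟩
    rw [hx] at this
    simpa using this
  have hgx : h (g x) = g x := by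
    by_contra hc
    have h1 : g (g x) ≠ g x := fun e => hxg (g.injective e)
    exact hxg (key _ h1 hc)
  have hhx : g (h x) = h x := by
    by_contra hc
    have h1 : h (h x) ≠ h x := fun e => hxh (h.injective e)
    exact hxh (key _ hc h1)
  have hne : g x ≠ h x := by
    intro e
    have h2 : h (g x) = h x := by rw [hgx, e]
    exact hxg (h.injective h2)
  have main : ∀ v, (swap x (h x) * swap x (g x)) (h (g v)) = g (h v) := by
    intro v
    rw [Perm.mul_apply]
    by_cases c1 : v = x
    · subst c1
      rw [hgx, hhx, swap_apply_right, swap_apply_left]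
    by_cases c2 : g v = x
    · have hv : h v = v := by
        by_contra hc
        exact c1 (key v (by rw [c2]; exact fun e => c1 e.symm) hc)
      rw [c2, swap_apply_of_ne_of_ne hxh hne.symm, swap_apply_right, hv, c2]
    by_cases c3 : h v = x
    · have hv : g v = v := by
        by_contra hc
        exact c1 (key v hc (by rw [c3]; exact fun e => c1 e.symm))
      rw [hv, c3, swap_apply_left, swap_apply_of_ne_of_ne hxg hne]
    by_cases c4 : g v = v
    · have n1 : h v ≠ g x := by
        intro e
        have e2 : h v = h (g x) := by rw [e, hgx]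
        have e3 : v = g x := h.injective e2
        exact c1 (g.injective (by rw [c4, ← e3]))
      have n2 : h v ≠ h x := fun e => c1 (h.injective e)
      rw [c4, swap_apply_of_ne_of_ne c3 n1, swap_apply_of_ne_of_ne c3 n2]
      by_cases c5 : h v = v
      · rw [c5, c4]
      · by_contra hc
        exact c3 (key (h v) (fun e => hc e.symm) (fun e => c5 (h.injective e)))
    · have hv : h v = v := by
        by_contra hc
        exact c1 (key v c4 hc)
      have hgv : h (g v) = g v := by
        by_contra hc
        exact c2 (key (g v) (fun e => c4 (g.injective e)) hc)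
      have n1 : g v ≠ g x := fun e => c1 (g.injective e)
      have n2 : g v ≠ h x := by
        intro e
        have e2 : g v = g (h x) := by rw [e, hhx]
        have e3 : v = h x := g.injective e2
        exact c1 (h.injective (by rw [hv, ← e3]))
      rw [hgv, swap_apply_of_ne_of_ne c2 n1, swap_apply_of_ne_of_ne c2 n2, hv]
  have e : g * h * g⁻¹ * h⁻¹ = swap x (h x) * swap x (g x) := by
    ext z
    have := main (g⁻¹ (h⁻¹ z))
    simp only [Perm.mul_apply] at this ⊢
    rw [← this]
    simp
  rw [e]
  exact isThreeCycle_swap_mul_swap_same hxh.symm hxg.symm hne.symm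

theorem support_comm_subset (g h : Perm P) :
    (g * h * g⁻¹ * h⁻¹).support ⊆ g.support ∪ h.support := by
  intro z hz
  by_contra hc
  simp only [Finset.mem_union, not_or, notMem_support] at hc
  apply mem_support.1 hz
  have h1 : h⁻¹ z = z := by rw [Perm.inv_eq_iff_eq]; exact hc.2.symm
  have h2 : g⁻¹ z = z := by rw [Perm.inv_eq_iff_eq]; exact hc.1.symm
  simp only [Perm.mul_apply]
  rw [h1, h2, hc.2, hc.1]

/-- A subgroup of small index contains a three-cycle inside every large set. -/
theorem exists_threeCycle (H : Subgroup (Perm P)) {Q W : Finset P} {N : ℕ}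
    (hN : IndexLE H Q N) (hW : W ⊆ Q) (hlt : N < ((W.card + 1) / 2).factorial) :
    ∃ g ∈ H, g.IsThreeCycle ∧ g.support ⊆ W := by
  classical
  let Base : Finset P → Prop := fun D => ∀ g ∈ H, g.support ⊆ W \ D → g = 1
  have hWB : Base W := by
    intro g _ hg
    rw [Finset.sdiff_self] at hg
    exact support_eq_empty_iff.1 (Finset.subset_empty.1 hg)
  obtain ⟨D, hDmem, hDmin⟩ := Finset.exists_min_image (W.powerset.filter Base) Finset.card
    ⟨W, by simp [hWB]⟩
  simp only [Finset.mem_filter, Finset.mem_powerset] at hDmem hDmin
  obtain ⟨hDW, hDB⟩ := hDmem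
  by_cases hc : 2 * D.card ≤ W.card
  · exfalso
    -- all permutations supported on `W \ D`
    set S := W \ D with hS
    have hScard : S.card = W.card - D.card := Finset.card_sdiff_of_subset hDW
    let T : Finset (Perm P) := Finset.univ.image (fun π : Perm S => (Perm.ofSubtype π))
    have hT : T.card = S.card.factorial := by
      rw [Finset.card_image_of_injective _ Perm.ofSubtype_injective, Finset.card_univ,
        Fintype.card_perm, Fintype.card_coe]
    have hsub : ∀ σ ∈ T, σ.support ⊆ S := by
      intro σ hσ
      simp only [T, Finset.mem_image, Finset.mem_univ, true_and] at hσ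
      obtain ⟨π, rfl⟩ := hσ
      intro z hz
      by_contra hzS
      exact (mem_support.1 hz) (Perm.ofSubtype_apply_of_not_mem π hzS)
    have hle := hN T (fun σ hσ => (hsub σ hσ).trans (Finset.sdiff_subset.trans hW)) (by
      intro σ hσ τ hτ hmem
      have h1 : (σ⁻¹ * τ).support ⊆ W \ D := by
        refine (support_mul_le _ _).trans ?_
        rw [support_inv]
        exact Finset.union_subset (hsub σ hσ) (hsub τ hτ)
      have := hDB _ hmem h1
      exact (inv_mul_eq_one.1 this))
    rw [hT] at hle
    have : ((W.card + 1) / 2).factorial ≤ S.card.factorial := by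
      apply Nat.factorial_le
      omega
    omega
  · push Not at hc
    have hnb : ∀ E : Finset P, E ⊆ W → E.card < D.card → ∃ g ∈ H, g.support ⊆ W \ E ∧ g ≠ 1 := by
      intro E hE hcard
      by_contra hcon
      push Not at hcon
      exact absurd (hDmin E ⟨hE, hcon⟩) (by omega)
    have hcs : (W \ D).card < D.card := by
      rw [Finset.card_sdiff_of_subset hDW]; omega
    obtain ⟨g, hg, hgs, hg1⟩ := hnb (W \ D) Finset.sdiff_subset hcs
    have hgs' : g.support ⊆ D := by
      intro z hz
      have := hgs hz
      simp only [Finset.mem_sdiff, not_and, not_not] at this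
      exact this.2 this.1
    obtain ⟨x, hx⟩ : g.support.Nonempty := by
      rw [Finset.nonempty_iff_ne_empty, Ne, support_eq_empty_iff]; exact hg1
    have hxD : x ∈ D := hgs' hx
    obtain ⟨h, hh, hhs, hh1⟩ := hnb (D.erase x) ((Finset.erase_subset _ _).trans hDW)
      (Finset.card_erase_lt_of_mem hxD)
    have hxh : x ∈ h.support := by
      by_contra hxh
      apply hh1
      apply hDB h hh
      intro z hz
      have := hhs hz
      simp only [Finset.mem_sdiff, Finset.mem_erase, not_and] at this ⊢
      refine ⟨this.1, fun hzD => this.2 ?_ hzD⟩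
      rintro rfl
      exact hxh hz
    refine ⟨g * h * g⁻¹ * h⁻¹, H.mul_mem (H.mul_mem (H.mul_mem hg hh) (H.inv_mem hg)) (H.inv_mem hh),
      comm_threeCycle (x := x) ?_, (support_comm_subset g h).trans ?_⟩
    · ext z
      simp only [Finset.mem_inter, Finset.mem_singleton]
      constructor
      · rintro ⟨h1, h2⟩
        by_contra hne
        have h3 := hhs h2
        simp only [Finset.mem_sdiff, Finset.mem_erase, not_and] at h3
        exact h3.2 hne (hgs' h1)
      · rintro rfl
        exact ⟨hx, hxh⟩
    · exact Finset.union_subset (hgs'.trans hDW) (hhs.trans Finset.sdiff_subset)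

end Pool.Agent.H66.SF
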