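import Pool.Agent.H66.SF.Defs
import Pool.Agent.H66.SF.Count

/-!
Local evaluation of formulas by partial injections.
-/

set_option linter.unusedSectionVars false

namespace Pool.Agent.H66.SF
open Equiv Equiv.Perm

section PM

variable {P M : Type} [Fintype P] [DecidableEq P] [DecidableEq M]

/-- a finite set of pairs is a partial injection -/
def PM (ν : Finset (P × M)) : Prop := ∀ p ∈ ν, ∀ q ∈ ν, (p.1 = q.1 ↔ p.2 = q.2)

/-- the domain -/
def dom (ν : Finset (P × M)) : Finset P := ν.image Prod.fst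

/-- restriction -/
def res (ν : Finset (P × M)) (S : Finset P) : Finset (P × M) := ν.filter (fun p => p.1 ∈ S)

/-- transport -/
def mv (g : Perm P) (ν : Finset (P × M)) : Finset (P × M) := ν.image (fun p => (g p.1, p.2))

theorem mem_dom {ν : Finset (P × M)} {a : P} : a ∈ dom ν ↔ ∃ j, (a, j) ∈ ν := by
  simp [dom]

theorem mem_res {ν : Finset (P × M)} {S : Finset P} {p : P × M} :
    p ∈ res ν S ↔ p ∈ ν ∧ p.1 ∈ S := by simp [res]

theorem res_subset (ν : Finset (P × M)) (S : Finset P) : res ν S ⊆ ν := Finset.filter_subset _ _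

theorem dom_mono {ν ν' : Finset (P × M)} (h : ν ⊆ ν') : dom ν ⊆ dom ν' :=
  Finset.image_subset_image h

theorem PM.mono {ν ν' : Finset (P × M)} (h : ν ⊆ ν') (h' : PM ν') : PM ν :=
  fun p hp q hq => h' p (h hp) q (h hq)

theorem dom_res {ν : Finset (P × M)} {S : Finset P} : dom (res ν S) = dom ν ∩ S := by
  ext a
  simp only [mem_dom, mem_res, Finset.mem_inter]
  constructor
  · rintro ⟨j, h1, h2⟩; exact ⟨⟨j, h1⟩, h2⟩
  · rintro ⟨⟨j, h1⟩, h2⟩; exact ⟨j, h1, h2⟩

theorem dom_res_of_subset {ν : Finset (P × M)} {S : Finset P} (h : S ⊆ dom ν) :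
    dom (res ν S) = S := by
  rw [dom_res, Finset.inter_eq_right.2 h]

theorem res_eq_of_subset {ν ν' : Finset (P × M)} {S : Finset P} (h : ν ⊆ ν') (h' : PM ν')
    (hS : S ⊆ dom ν) : res ν S = res ν' S := by
  ext p
  rw [mem_res, mem_res]
  constructor
  · rintro ⟨h1, h2⟩; exact ⟨h h1, h2⟩
  · rintro ⟨h1, h2⟩
    obtain ⟨j, hj⟩ := mem_dom.1 (hS h2)
    have : p.2 = j := (h' p h1 (p.1, j) (h hj)).1 rfl
    refine ⟨?_, h2⟩
    rw [← this] at hj
    exact hj

theorem res_mono {ν ν' : Finset (P × M)} (S : Finset P) (h : ν ⊆ ν') : res ν S ⊆ res ν' S := by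
  intro p hp
  rw [mem_res] at hp ⊢
  exact ⟨h hp.1, hp.2⟩

theorem mem_mv {g : Perm P} {ν : Finset (P × M)} {a : P} {j : M} :
    (a, j) ∈ mv g ν ↔ (g⁻¹ a, j) ∈ ν := by
  simp only [mv, Finset.mem_image, Prod.mk.injEq, Prod.exists]
  constructor
  · rintro ⟨b, k, h, rfl, rfl⟩
    simpa using h
  · intro h
    exact ⟨g⁻¹ a, j, h, by simp, rfl⟩

theorem mv_mul (g h : Perm P) (ν : Finset (P × M)) : mv (g * h) ν = mv g (mv h ν) := by
  ext ⟨a, j⟩
  rw [mem_mv, mem_mv, mem_mv]
  simp [mul_inv_rev]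

theorem mv_one (ν : Finset (P × M)) : mv 1 ν = ν := by
  ext ⟨a, j⟩
  rw [mem_mv]; simp

theorem mv_inv_mv (g : Perm P) (ν : Finset (P × M)) : mv g⁻¹ (mv g ν) = ν := by
  rw [← mv_mul, inv_mul_cancel, mv_one]

theorem mv_mv_inv (g : Perm P) (ν : Finset (P × M)) : mv g (mv g⁻¹ ν) = ν := by
  rw [← mv_mul, mul_inv_cancel, mv_one]

theorem mv_mono (g : Perm P) {ν ν' : Finset (P × M)} (h : ν ⊆ ν') : mv g ν ⊆ mv g ν' :=
  Finset.image_subset_image h

theorem mv_subset_mv {g : Perm P} {ν ν' : Finset (P × M)} : mv g ν ⊆ mv g ν' ↔ ν ⊆ ν' := by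
  constructor
  · intro h
    have := mv_mono g⁻¹ h
    rwa [mv_inv_mv, mv_inv_mv] at this
  · exact mv_mono g

theorem PM.mv {ν : Finset (P × M)} (h : PM ν) (g : Perm P) : PM (mv g ν) := by
  rintro ⟨a, j⟩ hp ⟨b, k⟩ hq
  rw [mem_mv] at hp hq
  have := h _ hp _ hq
  simpa using this

theorem PM_mv_iff {ν : Finset (P × M)} (g : Perm P) : PM (mv g ν) ↔ PM ν := by
  constructor
  · intro h
    have := h.mv g⁻¹
    rwa [mv_inv_mv] at this
  · exact fun h => h.mv g

theorem dom_mv (g : Perm P) (ν : Finset (P × M)) : dom (mv g ν) = (dom ν).image g := by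
  ext a
  simp only [mem_dom, mem_mv, Finset.mem_image]
  constructor
  · rintro ⟨j, h⟩; exact ⟨g⁻¹ a, ⟨j, h⟩, by simp⟩
  · rintro ⟨b, ⟨j, h⟩, rfl⟩; exact ⟨j, by simpa using h⟩

theorem res_mv (g : Perm P) (ν : Finset (P × M)) (S : Finset P) :
    res (mv g ν) (S.image g) = mv g (res ν S) := by
  ext ⟨a, j⟩
  simp only [mem_res, mem_mv, Finset.mem_image]
  constructor
  · rintro ⟨h, b, hb, rfl⟩
    exact ⟨h, by simpa using hb⟩
  · rintro ⟨h, h2⟩
    exact ⟨h, g⁻¹ a, h2, by simp⟩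

/-- extension of a partial injection to a larger domain -/
theorem exists_extend {R : ℕ} (hM : ∀ F : Finset M, F.card < R → ∃ x, x ∉ F)
    {ν : Finset (P × M)} (hν : PM ν) (Z : Finset P) (hc : (dom ν ∪ Z).card ≤ R) :
    ∃ ν', ν ⊆ ν' ∧ PM ν' ∧ dom ν' = dom ν ∪ Z := by
  classical
  induction Z using Finset.induction_on with
  | empty => exact ⟨ν, Finset.Subset.refl _, hν, by simp⟩
  | insert a Z ha ih =>
    obtain ⟨ν', h1, h2, h3⟩ := ih ((Finset.card_le_card (Finset.union_subset_union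
      (Finset.Subset.refl _) (Finset.subset_insert _ _))).trans hc)
    by_cases had : a ∈ dom ν'
    · refine ⟨ν', h1, h2, ?_⟩
      rw [Finset.union_insert, ← h3, Finset.insert_eq_self.2 had]
    · have hcard : (ν'.image Prod.snd).card < R := by
        have e1 : (ν'.image Prod.snd).card ≤ ν'.card := Finset.card_image_le
        have e2 : (dom ν').card = ν'.card := by
          apply Finset.card_image_of_injOn
          intro p hp q hq hpq
          exact Prod.ext hpq ((h2 p hp q hq).1 hpq)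
        have e3 : (dom ν ∪ insert a Z).card = (dom ν').card + 1 := by
          rw [Finset.union_insert, ← h3, Finset.card_insert_of_notMem had]
        omega
      obtain ⟨x, hx⟩ := hM _ hcard
      refine ⟨insert (a, x) ν', h1.trans (Finset.subset_insert _ _), ?_, ?_⟩
      · have hx' : ∀ p ∈ ν', p.2 ≠ x := by
          intro p hp e
          exact hx (Finset.mem_image.2 ⟨p, hp, e⟩)
        have ha' : ∀ p ∈ ν', p.1 ≠ a := by
          intro p hp e
          exact had (Finset.mem_image.2 ⟨p, hp, e⟩)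
        intro p hp q hq
        rw [Finset.mem_insert] at hp hq
        rcases hp with rfl | hp <;> rcases hq with rfl | hq
        · simp
        · have := hx' q hq
          have := ha' q hq
          constructor
          · intro e; exact absurd e.symm this
          · intro e; exact absurd e.symm (hx' q hq)
        · have := hx' p hp
          have := ha' p hp
          constructor
          · intro e; exact absurd e this
          · intro e; exact absurd e (hx' p hp)
        · exact h2 p hp q hq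
      · rw [Finset.union_insert, ← h3]
        simp [dom, Finset.image_insert]

/-- the combinatorial core: two partial injections which agree on `S` can be made compatible by an
even permutation fixing `S` -/
theorem exists_perm {ν ν₁ : Finset (P × M)} {S : Finset P} {s : ℕ} (hν : PM ν) (hν₁ : PM ν₁)
    (hS : S ⊆ dom ν) (hag : res ν S ⊆ ν₁) (hE : (dom ν₁ \ S).card ≤ s)
    (hroom : (dom ν).card + 2 * s + 2 ≤ Fintype.card P) :
    ∃ σ : Perm P, sign σ = 1 ∧ (∀ a ∈ S, σ a = a) ∧ PM (ν ∪ mv σ ν₁) := by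
  classical
  set E := dom ν₁ \ S with hEdef
  set F : Finset P := Finset.univ \ (dom ν ∪ E) with hF
  have hFcard : s + 2 ≤ F.card := by
    rw [hF, Finset.card_sdiff_of_subset (Finset.subset_univ _), Finset.card_univ]
    have := Finset.card_union_le (dom ν) E
    omega
  obtain ⟨F', hF'F, hF'c⟩ := Finset.exists_subset_card_eq (s := F) (n := E.card) (by omega)
  let e : E ≃ F' := Finset.equivOfCardEq hF'c.symm
  -- the partial map
  let t : P → P := fun x => if hx : ∃ a, ∃ j, (x, j) ∈ ν₁ ∧ (a, j) ∈ ν then hx.choose else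
    if hxE : x ∈ E then ((e ⟨x, hxE⟩ : F') : P) else x
  have ht1 : ∀ x, (∃ a, ∃ j, (x, j) ∈ ν₁ ∧ (a, j) ∈ ν) → ∃ j, (x, j) ∈ ν₁ ∧ (t x, j) ∈ ν := by
    intro x hx
    have : t x = hx.choose := dif_pos hx
    rw [this]
    exact hx.choose_spec
  have ht2 : ∀ x, (¬ ∃ a, ∃ j, (x, j) ∈ ν₁ ∧ (a, j) ∈ ν) → ∀ hxE : x ∈ E,
      t x = ((e ⟨x, hxE⟩ : F') : P) := by
    intro x hx hxE
    show (if hx : ∃ a, ∃ j, (x, j) ∈ ν₁ ∧ (a, j) ∈ ν then hx.choose else
      if hxE : x ∈ E then ((e ⟨x, hxE⟩ : F') : P) else x) = _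
    rw [dif_neg hx, dif_pos hxE]
  have ht2' : ∀ x, (¬ ∃ a, ∃ j, (x, j) ∈ ν₁ ∧ (a, j) ∈ ν) → x ∈ E → t x ∉ dom ν ∧ t x ∉ S := by
    intro x hx hxE
    rw [ht2 x hx hxE]
    have h1 : ((e ⟨x, hxE⟩ : F') : P) ∈ F := hF'F (e ⟨x, hxE⟩).2
    rw [hF, Finset.mem_sdiff, Finset.mem_union, not_or] at h1
    exact ⟨h1.2.1, fun h => h1.2.1 (hS h)⟩
  let m : P → P := fun x => if x ∈ S then x else t x
  have hmS : ∀ x ∈ S, m x = x := fun x hx => if_pos hx
  have hmE : ∀ x ∈ E, m x = t x := fun x hx => if_neg (Finset.mem_sdiff.1 hx).2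
  have htS : ∀ x ∈ E, t x ∉ S := by
    intro x hxE hxS
    by_cases hx : ∃ a, ∃ j, (x, j) ∈ ν₁ ∧ (a, j) ∈ ν
    · obtain ⟨j, h1, h2⟩ := ht1 x hx
      have h3 : (t x, j) ∈ ν₁ := hag (mem_res.2 ⟨h2, hxS⟩)
      have h4 : x = t x := (hν₁ _ h1 _ h3).2 rfl
      rw [← h4] at hxS
      exact (Finset.mem_sdiff.1 hxE).2 hxS
    · exact (ht2' x hx hxE).2 hxS
  have hinj : Set.InjOn m (S ∪ E : Finset P) := by
    intro x hx y hy hxy
    rw [Finset.mem_coe, Finset.mem_union] at hx hy
    rcases hx with hx | hx <;> rcases hy with hy | hy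
    · rwa [hmS x hx, hmS y hy] at hxy
    · rw [hmS x hx, hmE y hy] at hxy
      exact absurd (hxy ▸ hx) (htS y hy)
    · rw [hmE x hx, hmS y hy] at hxy
      exact absurd (hxy ▸ hy) (htS x hx)
    · rw [hmE x hx, hmE y hy] at hxy
      by_cases h1 : ∃ a, ∃ j, (x, j) ∈ ν₁ ∧ (a, j) ∈ ν <;>
      by_cases h2 : ∃ a, ∃ j, (y, j) ∈ ν₁ ∧ (a, j) ∈ ν
      · obtain ⟨j, h3, h4⟩ := ht1 x h1
        obtain ⟨k, h5, h6⟩ := ht1 y h2
        rw [hxy] at h4
        have : j = k := (hν _ h4 _ h6).1 rfl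
        subst this
        exact (hν₁ _ h3 _ h5).2 rfl
      · obtain ⟨j, h3, h4⟩ := ht1 x h1
        exact absurd (mem_dom.2 ⟨j, hxy ▸ h4⟩) (ht2' y h2 hy).1
      · obtain ⟨j, h3, h4⟩ := ht1 y h2
        exact absurd (mem_dom.2 ⟨j, hxy ▸ h4⟩) (ht2' x h1 hx).1
      · rw [ht2 x h1 hx, ht2 y h2 hy] at hxy
        have := e.injective (Subtype.ext hxy)
        simpa using this
  obtain ⟨g, hg⟩ := Finset.exists_equiv_extend_of_card_eq (t := (Finset.univ : Finset P))
    (s := S ∪ E) (f := m) (by simp) (by simp) hinj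
  let σ : Perm P := g.trans (Equiv.subtypeUnivEquiv (by simp))
  have hσ : ∀ x ∈ S ∪ E, σ x = m x := fun x hx => hg x hx
  -- compatibility only depends on the values on `S ∪ E`
  have compat : ∀ τ : Perm P, (∀ x ∈ S ∪ E, τ x = m x) → PM (ν ∪ mv τ ν₁) := by
    intro τ hτ
    have cross : ∀ p ∈ ν, ∀ q ∈ ν₁, (p.1 = τ q.1 ↔ p.2 = q.2) := by
      rintro ⟨a, j⟩ hp ⟨b, k⟩ hq
      simp only
      by_cases hbS : b ∈ S
      · rw [hτ b (Finset.mem_union_left _ hbS), hmS b hbS]
        obtain ⟨k', hk'⟩ := mem_dom.1 (hS hbS)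
        have h1 : (b, k') ∈ ν₁ := hag (mem_res.2 ⟨hk', hbS⟩)
        have h2 : k = k' := (hν₁ _ hq _ h1).1 rfl
        subst h2
        exact hν _ hp _ hk'
      · have hbE : b ∈ E := Finset.mem_sdiff.2 ⟨mem_dom.2 ⟨k, hq⟩, hbS⟩
        rw [hτ b (Finset.mem_union_right _ hbE), hmE b hbE]
        by_cases h1 : ∃ a, ∃ j, (b, j) ∈ ν₁ ∧ (a, j) ∈ ν
        · obtain ⟨j', h3, h4⟩ := ht1 b h1
          have : j' = k := (hν₁ _ h3 _ hq).1 rfl
          subst this
          exact hν _ hp _ h4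
        · constructor
          · intro e1
            exact absurd (mem_dom.2 ⟨j, e1 ▸ hp⟩) (ht2' b h1 hbE).1
          · intro e1
            subst e1
            exact absurd ⟨a, j, hq, hp⟩ h1
    rintro ⟨a, j⟩ hp ⟨b, k⟩ hq
    rw [Finset.mem_union, mem_mv] at hp hq
    rcases hp with hp | hp <;> rcases hq with hq | hq
    · exact hν _ hp _ hq
    · have := cross _ hp _ hq
      simpa using this
    · have h1 := cross _ hq _ hp
      have e0 : τ (τ⁻¹ a) = a := by simp
      simp only [e0] at h1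
      constructor
      · intro e1; exact (h1.1 e1.symm).symm
      · intro e1; exact (h1.2 e1.symm).symm
    · have := hν₁ _ hp _ hq
      simpa using this
  have hSE : (S ∪ E).card + 2 ≤ Fintype.card P := by
    have := Finset.card_union_le S E
    have := Finset.card_le_card hS
    omega
  rcases Int.units_eq_one_or (sign σ) with h | h
  · exact ⟨σ, h, fun a ha => by rw [hσ a (Finset.mem_union_left _ ha), hmS a ha], compat σ hσ⟩
  · have hcc : 1 < (Finset.univ \ (S ∪ E)).card := by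
      rw [Finset.card_sdiff_of_subset (Finset.subset_univ _), Finset.card_univ]
      omega
    obtain ⟨u, hu, v, hv, huv⟩ := Finset.one_lt_card.1 hcc
    simp only [Finset.mem_sdiff, Finset.mem_univ, true_and] at hu hv
    have hne : ∀ x ∈ S ∪ E, (σ * swap u v) x = m x := by
      intro x hx
      rw [Perm.mul_apply, swap_apply_of_ne_of_ne]
      · exact hσ x hx
      · rintro rfl; exact hu hx
      · rintro rfl; exact hv hx
    refine ⟨σ * swap u v, ?_, fun a ha => by
      rw [hne a (Finset.mem_union_left _ ha), hmS a ha], compat _ hne⟩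
    rw [Perm.sign_mul, h, sign_swap huv]
    norm_num

end PM

end Pool.Agent.H66.SF
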